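import Pool.Agent.J4H13.BC.Line

/-!
# Curves connecting the orbits of two points
-/

set_option autoImplicit false

open MvPolynomial

namespace Pool.Agent.J4H13.BC

open Pool.Agent.Helper397.HK

/-- extension of a homomorphism to a rational function field along an integral extension -/
theorem exists_ext_field {A : Type} [CommRing A] [IsDomain A] [Algebra ℂ A]
    [Algebra.FiniteType ℂ A] (B : Subalgebra ℂ A) [Algebra.IsIntegral B A] (θ : B →ₐ[ℂ] F1) :
    ∃ (M : Type) (_ : Field M) (_ : Algebra ℂ M) (i : F1 →ₐ[ℂ] M) (Θ : A →ₐ[ℂ] M),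
      CurveField M ∧ Function.Injective i ∧ ∀ b : B, Θ b = i (θ b) := by
  classical
  let Ω := AlgebraicClosure F1
  let i₀ : F1 →+* Ω := algebraMap F1 Ω
  obtain ⟨Θ₀, hΘ₀⟩ := Pool.Agent.H470.exists_ext (A := B) (B := A) (k := Ω)
    (i₀.comp (θ : B →+* F1)) (by
      intro x hx
      have h1 : (x : A) = 0 := hx
      have h2 : x = 0 := Subtype.ext h1
      rw [h2]
      exact Ideal.zero_mem _)
  obtain ⟨s, hs⟩ := (inferInstance : Algebra.FiniteType ℂ A).out
  let S : Set Ω := Θ₀ '' s
  have hS : S.Finite := (Finset.finite_toSet s).image _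
  let M := IntermediateField.adjoin F1 S
  have hfin : FiniteDimensional F1 M := by
    have : Finite S := hS
    exact IntermediateField.finiteDimensional_adjoin fun x _ => Algebra.IsIntegral.isIntegral x
  let Θ₁ : A →ₐ[ℂ] Ω :=
    { Θ₀ with
      commutes' := by
        intro c
        have h1 := hΘ₀ (algebraMap ℂ B c)
        change Θ₀ (algebraMap ℂ A c) = algebraMap ℂ Ω c
        have h2 : algebraMap B A (algebraMap ℂ B c) = algebraMap ℂ A c := rfl
        rw [h2] at h1
        rw [h1]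
        change i₀ (θ (algebraMap ℂ B c)) = _
        rw [AlgHom.commutes]
        exact (IsScalarTower.algebraMap_apply ℂ F1 Ω c).symm }
  have hmem : ∀ a, Θ₁ a ∈ M.restrictScalars ℂ := by
    have h1 : (⊤ : Subalgebra ℂ A) ≤ (M.restrictScalars ℂ).toSubalgebra.comap Θ₁ := by
      rw [← hs]
      apply Algebra.adjoin_le
      intro a ha
      exact IntermediateField.subset_adjoin F1 S ⟨a, ha, rfl⟩
    intro a
    exact h1 trivial
  let Θ : A →ₐ[ℂ] M := Θ₁.codRestrict (M.restrictScalars ℂ).toSubalgebra hmem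
  refine ⟨M, inferInstance, inferInstance, Algebra.algHom ℂ F1 M, Θ, ⟨?_, ?_⟩,
    (algebraMap F1 M).injective, ?_⟩
  · have h1 : Algebra.EssFiniteType (Polynomial ℂ) F1 :=
      Algebra.EssFiniteType.of_isLocalization F1 (nonZeroDivisors (Polynomial ℂ))
    have h2 : Algebra.EssFiniteType ℂ F1 := Algebra.EssFiniteType.comp ℂ (Polynomial ℂ) F1
    exact Algebra.EssFiniteType.comp ℂ F1 M
  · have h1 : Algebra.IsAlgebraic (Polynomial ℂ) F1 :=
      IsLocalization.isAlgebraic F1 (nonZeroDivisors (Polynomial ℂ))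
    have h2 : Algebra.IsAlgebraic F1 M := inferInstance
    have hinj : Function.Injective (algebraMap (Polynomial ℂ) M) := by
      rw [IsScalarTower.algebraMap_eq (Polynomial ℂ) F1 M]
      exact (algebraMap F1 M).injective.comp (IsFractionRing.injective (Polynomial ℂ) F1)
    have h3 : Algebra.IsAlgebraic (Polynomial ℂ) M := Algebra.IsAlgebraic.trans (Polynomial ℂ) F1 M
    have h4 : FaithfulSMul (Polynomial ℂ) M := (faithfulSMul_iff_algebraMap_injective _ _).2 hinj
    have h8 : IsScalarTower ℂ (Polynomial ℂ) M := IsScalarTower.of_algebraMap_eq (fun c => by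
      rw [IsScalarTower.algebraMap_apply ℂ F1 M, IsScalarTower.algebraMap_apply ℂ (Polynomial ℂ) F1,
        ← IsScalarTower.algebraMap_apply (Polynomial ℂ) F1 M])
    have h5 := trdeg_add_eq ℂ (Polynomial ℂ) (A := M)
    have h6 : Algebra.trdeg (Polynomial ℂ) M = 0 := trdeg_eq_zero_iff.2 h3
    rw [h6, Polynomial.trdeg_of_isDomain, add_zero] at h5
    rw [← h5]
  · intro b
    apply Subtype.ext
    exact hΘ₀ b

/-- **Curves connecting orbits.** -/
theorem exists_conn {A H : Type} [CommRing A] [IsDomain A] [Algebra ℂ A] [Algebra.FiniteType ℂ A]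
    [Group H] [Finite H] [MulSemiringAction H A] [SMulCommClass H ℂ A] {m : ℕ}
    (j : FixedPoints.subalgebra ℂ A H →ₐ[ℂ] FractionRing (PR m)) (hj : Function.Injective j) :
    ∃ h : A, h ≠ 0 ∧ (∀ σ : H, σ • h = h) ∧ ∀ φ φ' : A →ₐ[ℂ] ℂ, φ h ≠ 0 → φ' h ≠ 0 →
      ∃ (M : Type) (_ : Field M) (_ : Algebra ℂ M) (u : M) (Θ : A →ₐ[ℂ] M), CurveField M ∧
        Transcendental ℂ u ∧
        (∀ V : ValuationSubring M, (∀ c : ℂ, algebraMap ℂ M c ∈ V) → u ∈ V.nonunits →
          ∃ σ : H, ∀ a, Θ a - algebraMap ℂ M (φ (σ • a)) ∈ V.nonunits) ∧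
        (∀ V : ValuationSubring M, (∀ c : ℂ, algebraMap ℂ M c ∈ V) → u⁻¹ ∈ V.nonunits →
          ∃ σ : H, ∀ a, Θ a - algebraMap ℂ M (φ' (σ • a)) ∈ V.nonunits) := by
  classical
  have hB := finiteType_fixed (A := A) (H := H)
  have hinv := isInvariant_fixed (A := A) (H := H)
  have hint : Algebra.IsIntegral (FixedPoints.subalgebra ℂ A H) A :=
    Algebra.IsInvariant.isIntegral (FixedPoints.subalgebra ℂ A H) A H
  obtain ⟨g, hg, j', hj'⟩ := exists_away j hj
  have hdom : IsDomain (Localization.Away g) :=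
    IsLocalization.isDomain_localization (powers_le_nonZeroDivisors_of_noZeroDivisors hg)
  have hLft : Algebra.FiniteType ℂ (Localization.Away g) := by
    have h1 : Algebra.FiniteType (PR m) (Localization.Away g) :=
      IsLocalization.finiteType_of_monoid_fg (Submonoid.powers g) _
    exact Algebra.FiniteType.trans (S := PR m) inferInstance h1
  obtain ⟨h, hh, hext⟩ := generic_ext j' hj' 1 one_ne_zero
  refine ⟨h, fun h0 => hh (Subtype.ext h0), fun σ => h.2 σ, ?_⟩
  intro φ φ' hφ hφ'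
  obtain ⟨l, hl, -⟩ := hext (φ.comp (FixedPoints.subalgebra ℂ A H).val) hφ
  obtain ⟨l', hl', -⟩ := hext (φ'.comp (FixedPoints.subalgebra ℂ A H).val) hφ'
  obtain ⟨θ, hθ⟩ := exists_line l l'
  obtain ⟨M, _, _, i, Θ, hM, hi, hΘ⟩ := exists_ext_field (FixedPoints.subalgebra ℂ A H)
    (θ.comp j')
  obtain ⟨t, ht⟩ : ∃ t : M, t = i (algebraMap (Polynomial ℂ) F1 Polynomial.X) := ⟨_, rfl⟩
  have httr : Transcendental ℂ t := by
    rw [transcendental_iff]
    intro p hp
    have h1 : Polynomial.aeval t p = i (algebraMap (Polynomial ℂ) F1 p) := by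
      have h2 : (i.comp (Algebra.algHom ℂ (Polynomial ℂ) F1)) = Polynomial.aeval t := by
        apply Polynomial.algHom_ext
        rw [Polynomial.aeval_X, ht]
        rfl
      rw [← h2]
      rfl
    rw [h1, map_eq_zero_iff i hi,
      map_eq_zero_iff _ (IsFractionRing.injective (Polynomial ℂ) F1)] at hp
    exact hp
  have ht0 : t ≠ 0 := fun h => httr (by rw [h]; exact isAlgebraic_zero)
  have ht1 : t - 1 ≠ 0 := fun h => httr (by
    rw [sub_eq_zero.1 h]
    exact isAlgebraic_one)
  obtain ⟨u, hu⟩ : ∃ u : M, u = t / (t - 1) := ⟨_, rfl⟩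
  have hu1 : u - 1 = (t - 1)⁻¹ := by
    rw [hu]
    field_simp
    ring
  have hu1' : u - 1 ≠ 0 := by
    rw [hu1]
    exact inv_ne_zero ht1
  have htu : t = u * (u - 1)⁻¹ := by
    rw [hu1, inv_inv, hu]
    field_simp
  have hutr : Transcendental ℂ u := by
    intro h1
    apply httr
    rw [htu]
    exact h1.mul (h1.sub isAlgebraic_one).inv
  have hkey := hθ M i
  refine ⟨M, inferInstance, inferInstance, u, Θ, hM, hutr, ?_, ?_⟩
  · intro V hC huV
    have h1 : u - 1 ∉ V.nonunits := by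
      intro h2
      have h3 := V.nonunits.sub_mem huV h2
      rw [sub_sub_cancel] at h3
      exact one_notMem_nonunits V h3
    have htV : t ∈ V.nonunits := by
      rw [htu, mul_comm]
      exact nonunits_mul (inv_mem_of_notMem_nonunits h1) huV
    have h2 := (hkey V hC t ht).1 htV
    obtain ⟨ψ, hψ, hψB⟩ := exists_res_of_integral hC Θ (FixedPoints.subalgebra ℂ A H)
      (l.comp j') (fun b => by
        rw [hΘ]
        exact h2 (j' b))
    obtain ⟨σ, hσ⟩ := exists_conj (H := H) φ ψ (fun a ha => by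
      have h3 := hψB ⟨a, ha⟩
      change ψ a = l (j' ⟨a, ha⟩) at h3
      rw [h3, hl]
      rfl)
    refine ⟨σ, fun a => ?_⟩
    rw [← hσ]
    exact hψ a
  · intro V hC huV
    have hu0 : u ≠ 0 := fun h => hutr (by rw [h]; exact isAlgebraic_zero)
    have h1 : 1 - u⁻¹ ∉ V.nonunits := by
      intro h2
      have h3 := V.nonunits.add_mem h2 huV
      rw [sub_add_cancel] at h3
      exact one_notMem_nonunits V h3
    have htV : t - 1 ∈ V.nonunits := by
      have h2 : t - 1 = (1 - u⁻¹)⁻¹ * u⁻¹ := by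
        have h3 : 1 - u⁻¹ = (u - 1) * u⁻¹ := by
          field_simp
        rw [h3, htu]
        field_simp
        ring
      rw [h2]
      exact nonunits_mul (inv_mem_of_notMem_nonunits h1) huV
    have h2 := (hkey V hC t ht).2 htV
    obtain ⟨ψ, hψ, hψB⟩ := exists_res_of_integral hC Θ (FixedPoints.subalgebra ℂ A H)
      (l'.comp j') (fun b => by
        rw [hΘ]
        exact h2 (j' b))
    obtain ⟨σ, hσ⟩ := exists_conj (H := H) φ' ψ (fun a ha => by
      have h3 := hψB ⟨a, ha⟩
      change ψ a = l' (j' ⟨a, ha⟩) at h3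
      rw [h3, hl']
      rfl)
    refine ⟨σ, fun a => ?_⟩
    rw [← hσ]
    exact hψ a

end Pool.Agent.J4H13.BC
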