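import Pool.Agent.Helper397.HK.CurveD

/-!
# A function on a curve has as many zeros as poles
-/

set_option autoImplicit false
set_option linter.deprecated false

open MvPolynomial

namespace Pool.Agent.J4H13.BC

open Pool.Agent.Helper397.HK

variable {K : Type} [Field K] [Algebra ℂ K]

/-- elements of `ℂ[u]` are constants modulo `u` -/
lemma adjoin_const {u : K} (x : Algebra.adjoin ℂ {u}) : ∃ (c : ℂ) (y : Algebra.adjoin ℂ {u}),
    x = algebraMap ℂ _ c + ⟨u, Algebra.self_mem_adjoin_singleton ℂ u⟩ * y := by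
  obtain ⟨x, hx⟩ := x
  have hx' := hx
  rw [Algebra.adjoin_singleton_eq_range_aeval] at hx'
  obtain ⟨q, hq⟩ := hx'
  refine ⟨q.coeff 0, ⟨Polynomial.aeval u q.divX, Polynomial.aeval_mem_adjoin_singleton ℂ u⟩, ?_⟩
  apply Subtype.ext
  change x = algebraMap ℂ K (q.coeff 0) + u * Polynomial.aeval u q.divX
  have h1 := congrArg (Polynomial.aeval u) (Polynomial.X_mul_divX_add q)
  rw [map_add, map_mul, Polynomial.aeval_X, Polynomial.aeval_C] at h1
  rw [← hq, add_comm]
  exact h1.symm

lemma adjoin_maximal {u : K} (hu : Transcendental ℂ u) :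
    (Ideal.span {(⟨u, Algebra.self_mem_adjoin_singleton ℂ u⟩ : Algebra.adjoin ℂ {u})}).IsMaximal := by
  obtain ⟨a, ha⟩ : ∃ a : Algebra.adjoin ℂ {u}, a = ⟨u, Algebra.self_mem_adjoin_singleton ℂ u⟩ :=
    ⟨_, rfl⟩
  rw [← ha, Ideal.isMaximal_iff]
  constructor
  · rw [Ideal.mem_span_singleton]
    rintro ⟨c, hc⟩
    obtain ⟨c, hcm⟩ := c
    have hc' := hcm
    rw [Algebra.adjoin_singleton_eq_range_aeval] at hc'
    obtain ⟨q, hq⟩ := hc'
    have h1 : (1 : K) = u * c := by
      rw [ha] at hc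
      exact congrArg Subtype.val hc
    have h2 : Polynomial.aeval u (1 - Polynomial.X * q) = 0 := by
      rw [map_sub, map_one, map_mul, Polynomial.aeval_X]
      have : Polynomial.aeval u q = c := hq
      rw [this, ← h1, sub_self]
    have h3 := (transcendental_iff.1 hu) _ h2
    have h4 := congrArg (Polynomial.eval 0) h3
    simp at h4
  · intro J x hJ hx hxJ
    obtain ⟨c, y, hy⟩ := adjoin_const x
    have hc : c ≠ 0 := by
      rintro rfl
      apply hx
      rw [Ideal.mem_span_singleton, hy, ha]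
      exact ⟨y, by rw [map_zero, zero_add]⟩
    have h1 : algebraMap ℂ (Algebra.adjoin ℂ {u}) c ∈ J := by
      have h2 : algebraMap ℂ (Algebra.adjoin ℂ {u}) c = x - a * y := by
        rw [hy, ha]
        ring
      rw [h2]
      exact J.sub_mem hxJ (J.mul_mem_right y (hJ (Ideal.mem_span_singleton_self a)))
    have h2 := J.mul_mem_left (algebraMap ℂ _ c⁻¹) h1
    rwa [← map_mul, inv_mul_cancel₀ hc, map_one] at h2

open scoped IntermediateField.algebraAdjoinAdjoin in
/-- The number of the zeros of a function is its degree. -/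
theorem card_zeros (hK : CurveField K) {u : K} (hu : Transcendental ℂ u) {r : ℕ}
    {P : Fin r → Ideal (Aff u)} (hP : ∀ j, (P j).IsMaximal)
    (hPp : ∏ j, P j = Ideal.span {b : Aff u | (b : K) = u}) :
    r = Module.finrank (IntermediateField.adjoin ℂ {u}) K := by
  classical
  obtain ⟨h1, h2, h3⟩ := isDedekind_aff hK hu
  have hpr := isPrincipal_adjoin u
  have hfin := hK.finite hu
  have hded : IsDedekindDomain (Algebra.adjoin ℂ {u}) := IsPrincipalIdealRing.isDedekindDomain _
  obtain ⟨a, ha⟩ : ∃ a : Algebra.adjoin ℂ {u}, a = ⟨u, Algebra.self_mem_adjoin_singleton ℂ u⟩ :=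
    ⟨_, rfl⟩
  have hu0 : u ≠ 0 := fun h => hu (by rw [h]; exact isAlgebraic_zero)
  have ha0 : a ≠ 0 := by
    rw [ha]
    intro h
    exact hu0 (congrArg Subtype.val h)
  -- the maximal ideal
  obtain ⟨p, hp⟩ : ∃ p : Ideal (Algebra.adjoin ℂ {u}), p = Ideal.span {a} := ⟨_, rfl⟩
  have hpm : p.IsMaximal := by
    rw [hp, ha]
    exact adjoin_maximal hu
  have hp0 : p ≠ ⊥ := by
    rw [hp, Ne, Ideal.span_singleton_eq_bot]
    exact ha0
  have hset : {b : Aff u | (b : K) = u} = {algebraMap (Algebra.adjoin ℂ {u}) (Aff u) a} := by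
    ext b
    rw [Set.mem_setOf_eq, Set.mem_singleton_iff, ha]
    constructor
    · intro h
      exact Subtype.ext h
    · rintro rfl
      rfl
  have hmap : p.map (algebraMap (Algebra.adjoin ℂ {u}) (Aff u)) = ∏ j, P j := by
    rw [hPp, hset, hp, Ideal.map_span, Set.image_singleton]
  have h4 := Ideal.sum_ramification_inertia (Aff u) (IntermediateField.adjoin ℂ {u}) K hp0
  have hne : p.map (algebraMap (Algebra.adjoin ℂ {u}) (Aff u)) ≠ ⊥ := by
    rw [hp, Ideal.map_span, Set.image_singleton, Ne, Ideal.span_singleton_eq_bot]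
    intro h
    exact hu0 (by rw [ha] at h; exact congrArg Subtype.val h)
  obtain ⟨f, hf⟩ : ∃ f, f = UniqueFactorizationMonoid.factors
    (p.map (algebraMap (Algebra.adjoin ℂ {u}) (Aff u))) := ⟨_, rfl⟩
  have hfp : ∀ Q ∈ f, Prime Q := by
    intro Q hQ
    rw [hf] at hQ
    exact UniqueFactorizationMonoid.prime_of_factor Q hQ
  have hP0 : ∀ j, P j ≠ ⊥ := by
    intro j h
    apply hne
    rw [hmap]
    exact Finset.prod_eq_zero (Finset.mem_univ j) h
  have hcard : f.card = r := by
    have h5 : f.prod = (Finset.univ.val.map P).prod := by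
      rw [hf]
      exact (associated_iff_eq.1 (UniqueFactorizationMonoid.factors_prod hne)).trans hmap
    have h6 : ∀ Q ∈ Finset.univ.val.map P, Prime Q := by
      intro Q hQ
      obtain ⟨j, -, rfl⟩ := Multiset.mem_map.1 hQ
      exact Ideal.prime_of_isPrime (hP0 j) (hP j).isPrime
    have h7 := prime_factors_unique hfp h6 (associated_iff_eq.2 h5)
    have h8 := Multiset.card_eq_card_of_rel h7
    rw [h8]
    simp
  rw [← h4, ← hcard, ← Multiset.toFinset_sum_count_eq]
  rw [IsDedekindDomain.primesOverFinset, ← hf]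
  refine Finset.sum_congr rfl fun Q hQ => ?_
  have hQf : Q ∈ f := Multiset.mem_toFinset.1 hQ
  have hQp : Q.IsPrime := Ideal.isPrime_of_prime (hfp Q hQf)
  have hQ0 : Q ≠ ⊥ := (hfp Q hQf).ne_zero
  have hQm : Q.IsMaximal := hQp.isMaximal hQ0
  rw [Ideal.IsDedekindDomain.ramificationIdx'_eq_factors_count hne hQp hQ0, ← hf]
  have hover : Q.LiesOver p := by
    constructor
    apply (Ideal.IsMaximal.eq_of_le hpm (Ideal.comap_ne_top _ hQp.ne_top) _)
    rw [← Ideal.map_le_iff_le_comap]
    apply Ideal.le_of_dvd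
    rw [hf] at hQf
    exact UniqueFactorizationMonoid.dvd_of_mem_factors hQf
  have hdeg : p.inertiaDeg' Q = 1 := by
    rw [Ideal.inertiaDeg'_algebraMap]
    let _ := Ideal.Quotient.field p
    rw [finrank_eq_one_iff_of_nonzero' (1 : Aff u ⧸ Q)]
    · intro w
      obtain ⟨w, rfl⟩ := Ideal.Quotient.mk_surjective w
      obtain ⟨c, hc⟩ := exists_residue hK hu Q w
      refine ⟨Ideal.Quotient.mk p (algebraMap ℂ _ c), ?_⟩
      rw [Algebra.smul_def, mul_one]
      change Ideal.Quotient.mk Q (algebraMap (Algebra.adjoin ℂ {u}) (Aff u) (algebraMap ℂ _ c)) = _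
      rw [← IsScalarTower.algebraMap_apply]
      exact (Ideal.Quotient.eq.2 hc).symm
    · intro h
      exact hQp.ne_top ((Ideal.eq_top_iff_one _).2 (Ideal.Quotient.eq_zero_iff_mem.1 h))
  rw [hdeg, mul_one]

/-- As many zeros as poles. -/
theorem card_zeros_eq (hK : CurveField K) {u : K} (hu : Transcendental ℂ u) {r r' : ℕ}
    {P : Fin r → Ideal (Aff u)} (hP : ∀ j, (P j).IsMaximal)
    (hPp : ∏ j, P j = Ideal.span {b : Aff u | (b : K) = u})
    {Q : Fin r' → Ideal (Aff u⁻¹)} (hQ : ∀ j, (Q j).IsMaximal)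
    (hQq : ∏ j, Q j = Ideal.span {b : Aff u⁻¹ | (b : K) = u⁻¹}) : r = r' ∧ r ≠ 0 := by
  have hu' : Transcendental ℂ u⁻¹ := fun h0 => hu (by
    have := h0.inv
    rwa [inv_inv] at this)
  have h1 : IntermediateField.adjoin ℂ {u⁻¹} = IntermediateField.adjoin ℂ {u} := by
    apply le_antisymm
    · rw [IntermediateField.adjoin_simple_le_iff]
      exact inv_mem (IntermediateField.mem_adjoin_simple_self ℂ u)
    · rw [IntermediateField.adjoin_simple_le_iff]
      have := inv_mem (IntermediateField.mem_adjoin_simple_self ℂ u⁻¹)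
      rwa [inv_inv] at this
  have hfin := hK.finite hu
  have h2 := card_zeros hK hu hP hPp
  have h3 := card_zeros hK hu' hQ hQq
  rw [h1] at h3
  refine ⟨h2.trans h3.symm, ?_⟩
  rw [h2]
  exact Module.finrank_pos.ne'

end Pool.Agent.J4H13.BC
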