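import Mathlib

/-!
# Homomorphisms to `ℂ`: extension and invariants of finite groups
-/

set_option autoImplicit false

namespace Pool.Agent.J4H13.BC

lemma hom_eq_of_ker {A : Type} [CommRing A] [Algebra ℂ A] {φ ψ : A →ₐ[ℂ] ℂ}
    (h : ∀ a, φ a = 0 → ψ a = 0) : φ = ψ := by
  ext a
  have h1 : φ (a - algebraMap ℂ A (φ a)) = 0 := by
    rw [map_sub, AlgHom.commutes]
    simp
  have h2 := h _ h1
  rw [map_sub, AlgHom.commutes, sub_eq_zero] at h2
  rw [h2]
  rfl

/-- A homomorphism to `ℂ` with kernel in a given maximal ideal. -/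
lemma exists_hom_of_maximal {A : Type} [CommRing A] [Algebra ℂ A] [Algebra.FiniteType ℂ A]
    (m : Ideal A) [hm : m.IsMaximal] : ∃ φ : A →ₐ[ℂ] ℂ, ∀ a, φ a = 0 ↔ a ∈ m := by
  let _ := Ideal.Quotient.field m
  have : Algebra.FiniteType ℂ (A ⧸ m) := inferInstance
  have := finite_of_finite_type_of_isJacobsonRing ℂ (A ⧸ m)
  have : Algebra.IsAlgebraic ℂ (A ⧸ m) := Algebra.IsAlgebraic.of_finite ℂ _
  have hb : Function.Bijective (algebraMap ℂ (A ⧸ m)) :=
    IsAlgClosed.algebraMap_bijective_of_isIntegral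
  let e : ℂ ≃ₐ[ℂ] (A ⧸ m) := AlgEquiv.ofBijective (Algebra.ofId ℂ (A ⧸ m)) hb
  refine ⟨e.symm.toAlgHom.comp (Ideal.Quotient.mkₐ ℂ m), fun a => ?_⟩
  change e.symm (Ideal.Quotient.mk m a) = 0 ↔ _
  rw [map_eq_zero_iff e.symm e.symm.injective, Ideal.Quotient.eq_zero_iff_mem]

/-- **Chevalley.** -/
theorem generic_ext {B L : Type} [CommRing B] [IsDomain B] [Algebra ℂ B] [Algebra.FiniteType ℂ B]
    [CommRing L] [IsDomain L] [Algebra ℂ L] [Algebra.FiniteType ℂ L] (j : B →ₐ[ℂ] L)
    (hj : Function.Injective j) (D : L) (hD : D ≠ 0) : ∃ h : B, h ≠ 0 ∧ ∀ β : B →ₐ[ℂ] ℂ, β h ≠ 0 →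
      ∃ l : L →ₐ[ℂ] ℂ, (∀ b, l (j b) = β b) ∧ l D ≠ 0 := by
  classical
  have hnoeth : IsNoetherianRing B := Algebra.FiniteType.isNoetherianRing ℂ B
  let f : B →+* L := j.toRingHom
  have hinj : Function.Injective f := hj
  have hfp : f.FinitePresentation := by
    refine RingHom.FinitePresentation.of_finiteType.mp ?_
    have h1 : (algebraMap ℂ L).FiniteType := by
      rw [RingHom.finiteType_algebraMap]
      infer_instance
    have h2 : f.comp (algebraMap ℂ B) = algebraMap ℂ L := by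
      ext x
      exact j.commutes x
    rw [← h2] at h1
    exact RingHom.FiniteType.of_comp_finiteType h1
  have hcon := PrimeSpectrum.isConstructible_comap_image hfp
    (PrimeSpectrum.isConstructible_basicOpen (f := D))
  obtain ⟨S, hS⟩ := PrimeSpectrum.exists_constructibleSetData_iff.mpr hcon
  have hbot : (⊥ : PrimeSpectrum B) ∈
      PrimeSpectrum.comap f '' (PrimeSpectrum.basicOpen D : Set _) := by
    refine ⟨⊥, ?_, ?_⟩
    · simpa using hD
    · apply PrimeSpectrum.ext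
      change Ideal.comap f ⊥ = ⊥
      exact Ideal.comap_bot_of_injective f hinj
  rw [← hS] at hbot
  simp only [PrimeSpectrum.ConstructibleSetData.toSet, Set.mem_iUnion] at hbot
  obtain ⟨E, hC, hCb⟩ := hbot
  obtain ⟨hg, hf⟩ := hCb
  have hg0 : ∀ i, E.g i = 0 := by
    intro i
    have := hg (Set.mem_range_self i)
    simpa using this
  have hf0 : E.f ≠ 0 := by
    intro h
    apply hf
    rw [PrimeSpectrum.mem_zeroLocus, Set.singleton_subset_iff, h]
    exact Ideal.zero_mem _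
  refine ⟨E.f, hf0, fun β hβ => ?_⟩
  let m : PrimeSpectrum B := ⟨RingHom.ker β, RingHom.ker_isPrime _⟩
  have hm : m ∈ S.toSet := by
    simp only [PrimeSpectrum.ConstructibleSetData.toSet, Set.mem_iUnion]
    refine ⟨E, hC, ?_, ?_⟩
    · rw [PrimeSpectrum.mem_zeroLocus]
      rintro _ ⟨i, rfl⟩
      rw [hg0 i]
      exact Ideal.zero_mem _
    · rw [PrimeSpectrum.mem_zeroLocus, Set.singleton_subset_iff]
      intro h
      exact hβ h
  rw [hS] at hm
  obtain ⟨q, hDq, hqm⟩ := hm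
  have hDq' : D ∉ q.asIdeal := hDq
  obtain ⟨M, hqM, hM, hDM⟩ : ∃ M : Ideal L, q.asIdeal ≤ M ∧ M.IsMaximal ∧ D ∉ M := by
    by_contra hcon
    push Not at hcon
    apply hDq'
    have hjac : IsJacobsonRing L := by
      have h1 : IsJacobsonRing ℂ := inferInstance
      exact isJacobsonRing_of_finiteType (A := ℂ) (B := L)
    have h1 : q.asIdeal.jacobson = q.asIdeal :=
      hjac.out q.isPrime.isRadical
    rw [← h1, Ideal.jacobson, Ideal.mem_sInf]
    rintro I ⟨hI1, hI2⟩
    exact hcon I hI1 hI2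
  obtain ⟨l, hl⟩ := exists_hom_of_maximal M
  refine ⟨l, fun b => ?_, fun h0 => hDM ((hl D).1 h0)⟩
  have h1 : β = l.comp j := by
    apply hom_eq_of_ker
    intro a ha
    change l (j a) = 0
    rw [hl]
    apply hqM
    have h2 : a ∈ m.asIdeal := ha
    rw [← hqm] at h2
    exact h2
  rw [h1]
  rfl

lemma isInvariant_fixed {A H : Type} [CommRing A] [Algebra ℂ A] [Group H]
    [MulSemiringAction H A] [SMulCommClass H ℂ A] :
    Algebra.IsInvariant (FixedPoints.subalgebra ℂ A H) A H :=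
  ⟨fun x hx => ⟨⟨x, hx⟩, rfl⟩⟩

open scoped Pointwise in
/-- Homomorphisms to `ℂ` with the same restriction to the invariants. -/
theorem exists_conj {A H : Type} [CommRing A] [Algebra ℂ A] [Group H] [Finite H]
    [MulSemiringAction H A] [SMulCommClass H ℂ A] (φ ψ : A →ₐ[ℂ] ℂ)
    (h : ∀ a : A, (∀ σ : H, σ • a = a) → φ a = ψ a) : ∃ σ : H, ∀ a, ψ a = φ (σ • a) := by
  have h1 : (RingHom.ker φ).under (FixedPoints.subalgebra ℂ A H) =
      (RingHom.ker ψ).under (FixedPoints.subalgebra ℂ A H) := by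
    ext ⟨a, ha⟩
    rw [Ideal.under_def, Ideal.under_def, Ideal.mem_comap, Ideal.mem_comap]
    change φ a = 0 ↔ ψ a = 0
    rw [h a ha]
  have hp1 : (RingHom.ker φ).IsPrime := RingHom.ker_isPrime _
  have hp2 : (RingHom.ker ψ).IsPrime := RingHom.ker_isPrime _
  have hinv := isInvariant_fixed (A := A) (H := H)
  have hcomm : SMulCommClass H (FixedPoints.subalgebra ℂ A H) A := by
    constructor
    rintro σ ⟨b, hb⟩ a
    change σ • (b * a) = b * (σ • a)
    rw [smul_mul', hb σ]
  obtain ⟨g, hg⟩ := Algebra.IsInvariant.exists_smul_of_under_eq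
    (FixedPoints.subalgebra ℂ A H) A H (RingHom.ker φ) (RingHom.ker ψ) h1
  refine ⟨g⁻¹, fun a => ?_⟩
  have h2 : (φ.comp (MulSemiringAction.toAlgHom ℂ A g⁻¹)) = ψ := by
    symm
    apply hom_eq_of_ker
    intro b hb
    have h3 : b ∈ RingHom.ker ψ := hb
    rw [hg, Ideal.mem_pointwise_smul_iff_inv_smul_mem] at h3
    exact h3
  rw [← h2]
  rfl

/-- **Artin–Tate.** The ring of invariants is finitely generated. -/
theorem finiteType_fixed {A H : Type} [CommRing A] [Algebra ℂ A] [Algebra.FiniteType ℂ A]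
    [Group H] [Finite H] [MulSemiringAction H A] [SMulCommClass H ℂ A] :
    Algebra.FiniteType ℂ (FixedPoints.subalgebra ℂ A H) := by
  have hinv := isInvariant_fixed (A := A) (H := H)
  have h1 : Algebra.IsIntegral (FixedPoints.subalgebra ℂ A H) A :=
    Algebra.IsInvariant.isIntegral (FixedPoints.subalgebra ℂ A H) A H
  have h2 : Algebra.FiniteType (FixedPoints.subalgebra ℂ A H) A :=
    Algebra.FiniteType.of_restrictScalars_finiteType ℂ _ A
  have h3 : Module.Finite (FixedPoints.subalgebra ℂ A H) A := Algebra.IsIntegral.finite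
  constructor
  refine fg_of_fg_of_fg ℂ (FixedPoints.subalgebra ℂ A H) A ?_ ?_ ?_
  · exact Algebra.FiniteType.out
  · exact Module.Finite.fg_top
  · exact Subtype.val_injective

end Pool.Agent.J4H13.BC
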