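import Pool.Agent.J4H13.BC.Machine

/-!
# The machine for extensions generated by square roots
-/

set_option autoImplicit false

open MvPolynomial

namespace Pool.Agent.J4H13.BC

open Pool.Agent.Helper397.HK

section

variable {K : Type} [Field K] [Algebra ℂ K] (k₀ : IntermediateField ℂ K) {k : ℕ} (w : Fin k → K)

lemma charZero_of_C (F : Type) [Field F] [Algebra ℂ F] : CharZero F :=
  charZero_of_injective_algebraMap (algebraMap ℂ F).injective

lemma minpoly_splits (hw : ∀ i, w i ^ 2 ∈ k₀) (i : Fin k) :
    IsIntegral k₀ (w i) ∧ ((minpoly k₀ (w i)).map (algebraMap k₀ K)).Splits := by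
  obtain ⟨p, hp⟩ : ∃ p : Polynomial k₀, p = Polynomial.X ^ 2 - Polynomial.C ⟨w i ^ 2, hw i⟩ :=
    ⟨_, rfl⟩
  have hmon : p.Monic := by
    rw [hp]
    exact Polynomial.monic_X_pow_sub_C _ two_ne_zero
  have hroot : Polynomial.aeval (w i) p = 0 := by
    rw [hp, map_sub, map_pow, Polynomial.aeval_X, Polynomial.aeval_C]
    change w i ^ 2 - w i ^ 2 = 0
    ring
  have hmap : p.map (algebraMap k₀ K) = (Polynomial.X - Polynomial.C (w i)) *
      (Polynomial.X + Polynomial.C (w i)) := by
    rw [hp, Polynomial.map_sub, Polynomial.map_pow, Polynomial.map_X, Polynomial.map_C]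
    have h1 : algebraMap k₀ K ⟨w i ^ 2, hw i⟩ = w i ^ 2 := rfl
    rw [h1, Polynomial.C_pow]
    ring
  refine ⟨⟨p, hmon, hroot⟩, ?_⟩
  have h1 : (p.map (algebraMap k₀ K)).Splits := by
    rw [hmap]
    exact (Polynomial.Splits.X_sub_C _).mul (Polynomial.Splits.X_add_C _)
  refine Polynomial.Splits.of_dvd h1 ?_ (Polynomial.map_dvd _ (minpoly.dvd _ _ hroot))
  exact (hmon.map _).ne_zero

variable {k₀ w}

lemma isGalois_sqrt (hw : ∀ i, w i ^ 2 ∈ k₀) (hgen : IntermediateField.adjoin k₀ (Set.range w) = ⊤) :
    FiniteDimensional k₀ K ∧ IsGalois k₀ K := by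
  have hchar : CharZero k₀ := charZero_of_C k₀
  have h1 : ∀ x ∈ Set.range w, IsIntegral k₀ x := by
    rintro _ ⟨i, rfl⟩
    exact (minpoly_splits k₀ w hw i).1
  have hfin : FiniteDimensional k₀ K := by
    have h2 := IntermediateField.finiteDimensional_adjoin (K := k₀) (S := Set.range w) h1
    rw [hgen] at h2
    exact (IntermediateField.topEquiv (F := k₀) (E := K)).toLinearEquiv.finiteDimensional
  have hnorm : Normal k₀ K := by
    have halg : Algebra.IsAlgebraic k₀ K := Algebra.IsAlgebraic.of_finite k₀ K
    refine { splits' := fun x => ?_ }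
    have hx : x ∈ IntermediateField.adjoin k₀ (Set.range w) := by
      rw [hgen]
      trivial
    refine IntermediateField.splits_of_mem_adjoin k₀ K (S := Set.range w) ?_ hx
    rintro _ ⟨i, rfl⟩
    exact minpoly_splits k₀ w hw i
  exact ⟨hfin, ⟨⟩⟩

/-- **The machine for square roots.** -/
theorem kummer (hw : ∀ i, w i ^ 2 ∈ k₀) (hw0 : ∀ i, w i ≠ 0)
    (hgen : IntermediateField.adjoin k₀ (Set.range w) = ⊤)
    (huni : ∀ S : Finset (Fin k), ∃ L : IntermediateField ℂ K, k₀ ≤ L ∧ ∏ i ∈ S, w i ∈ L ∧
      ∃ m : ℕ, Nonempty (L →ₐ[ℂ] FractionRing (PR m)))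
    {N : ℕ} (ξ : Fin (N + 1) → K) (hξ : ξ ≠ 0) : ∀ a b : (locus ξ hξ).Pts ℂ, cls a = cls b := by
  classical
  obtain ⟨hfin, hgal⟩ := isGalois_sqrt hw hgen
  let G := K ≃ₐ[k₀] K
  have hcomm : SMulCommClass G ℂ K := by
    refine ⟨fun σ c x => ?_⟩
    change σ (c • x) = c • σ x
    rw [Algebra.smul_def, Algebra.smul_def, map_mul]
    congr 1
    exact σ.commutes (algebraMap ℂ k₀ c)
  have hGfin : Finite G := inferInstance
  -- the signs
  have hsign : ∀ (σ : G) (i : Fin k), ∃ e : ℤ, (e = 1 ∨ e = -1) ∧ σ (w i) = (e : K) * w i := by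
    intro σ i
    have h1 : σ (w i) ^ 2 = w i ^ 2 := by
      rw [← map_pow]
      exact σ.commutes ⟨w i ^ 2, hw i⟩
    rcases sq_eq_sq_iff_eq_or_eq_neg.1 h1 with h2 | h2
    · exact ⟨1, Or.inl rfl, by rw [h2, Int.cast_one, one_mul]⟩
    · exact ⟨-1, Or.inr rfl, by rw [h2]; push_cast; ring⟩
  choose e he hew using hsign
  let wS : Finset (Fin k) → K := fun S => ∏ i ∈ S, w i
  have hwS0 : ∀ S, wS S ≠ 0 := fun S => Finset.prod_ne_zero_iff.2 fun i _ => hw0 i
  have hσS : ∀ (σ : G) (S), σ (wS S) = ((∏ i ∈ S, e σ i : ℤ) : K) * wS S := by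
    intro σ S
    change σ (∏ i ∈ S, w i) = _
    rw [map_prod, Int.cast_prod, ← Finset.prod_mul_distrib]
    exact Finset.prod_congr rfl fun i _ => hew σ i
  have heS : ∀ (σ : G) (S : Finset (Fin k)), ∏ i ∈ S, e σ i = 1 ∨ ∏ i ∈ S, e σ i = -1 := by
    intro σ S
    induction S using Finset.induction_on with
    | empty => left; rw [Finset.prod_empty]
    | insert a S ha ih =>
      rw [Finset.prod_insert ha]
      rcases he σ a with h1 | h1 <;> rcases ih with h2 | h2 <;> rw [h1, h2] <;> simp
  have hcharK : CharZero K := charZero_of_C K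
  let H : Finset (Fin k) → Subgroup G := fun S => MulAction.stabilizer G (wS S)
  have hmem : ∀ (σ : G) S, σ ∈ H S ↔ ∏ i ∈ S, e σ i = 1 := by
    intro σ S
    rw [MulAction.mem_stabilizer_iff]
    change σ (wS S) = wS S ↔ _
    rw [hσS]
    constructor
    · intro h1
      rcases heS σ S with h2 | h2
      · exact h2
      · rw [h2] at h1
        push_cast at h1
        have h3 : (2 : K) * wS S = 0 := by linear_combination -h1
        rcases mul_eq_zero.1 h3 with h4 | h4
        · exact absurd h4 two_ne_zero
        · exact absurd h4 (hwS0 S)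
    · intro h1
      rw [h1, Int.cast_one, one_mul]
  let c : Finset (Fin k) → ℚ := fun S => 2 / 2 ^ k - if S = ∅ then 1 else 0
  refine machine G H c ?_ ?_ ξ hξ
  · intro σ
    have h1 : ∀ S, (if σ ∈ H S then c S else 0) = (1 + ∏ i ∈ S, (e σ i : ℚ)) / 2 ^ k -
        if S = ∅ then 1 else 0 := by
      intro S
      have h2 : (∏ i ∈ S, (e σ i : ℚ)) = ((∏ i ∈ S, e σ i : ℤ) : ℚ) := by push_cast; rfl
      rw [h2]
      by_cases hS : σ ∈ H S
      · rw [if_pos hS, (hmem σ S).1 hS]
        simp only [c]
        norm_num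
      · rw [if_neg hS]
        have h3 : ∏ i ∈ S, e σ i = -1 := (heS σ S).resolve_left fun h => hS ((hmem σ S).2 h)
        have h4 : S ≠ ∅ := by
          rintro rfl
          apply hS
          rw [hmem, Finset.prod_empty]
        rw [h3, if_neg h4]
        norm_num
    have h1' : ∀ S, @ite ℚ (σ ∈ H S) (Classical.propDecidable _) (c S) 0 =
        (1 + ∏ i ∈ S, (e σ i : ℚ)) / 2 ^ k - if S = ∅ then 1 else 0 := by
      intro S
      rw [← h1 S]
      congr
    rw [Finset.sum_congr rfl fun S _ => h1' S, Finset.sum_sub_distrib, ← Finset.sum_div,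
      Finset.sum_add_distrib, Finset.sum_ite_eq' Finset.univ ∅ (fun _ => (1 : ℚ)),
      if_pos (Finset.mem_univ _)]
    have h5 : ∑ S : Finset (Fin k), (1 : ℚ) = 2 ^ k := by
      rw [Finset.sum_const, Finset.card_univ, Fintype.card_finset, Fintype.card_fin]
      simp
    have h6 : ∑ S : Finset (Fin k), ∏ i ∈ S, (e σ i : ℚ) = ∏ i, (1 + (e σ i : ℚ)) := by
      rw [Finset.prod_one_add, Finset.powerset_univ]
    rw [h5, h6]
    have hk : (2 : ℚ) ^ k ≠ 0 := pow_ne_zero _ two_ne_zero
    by_cases hσ : σ = 1
    · rw [if_pos hσ]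
      have h7 : ∀ i, e σ i = 1 := by
        intro i
        rcases he σ i with h8 | h8
        · exact h8
        · exfalso
          have h9 := hew σ i
          rw [h8, hσ] at h9
          have h10 : w i = -w i := by
            have : (1 : G) (w i) = w i := rfl
            rw [this] at h9
            push_cast at h9
            linear_combination h9
          have h11 : (2 : K) * w i = 0 := by linear_combination h10
          rcases mul_eq_zero.1 h11 with h12 | h12
          · exact absurd h12 two_ne_zero
          · exact absurd h12 (hw0 i)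
      have h13 : ∏ i, (1 + (e σ i : ℚ)) = 2 ^ k := by
        rw [Finset.prod_congr rfl fun i _ => by rw [h7 i]]
        rw [Finset.prod_const, Finset.card_univ, Fintype.card_fin]
        norm_num
      rw [h13]
      field_simp
      norm_num
    · rw [if_neg hσ]
      obtain ⟨i, hi⟩ : ∃ i, e σ i ≠ 1 := by
        by_contra hcon
        push Not at hcon
        apply hσ
        have h7 : ∀ x : K, σ x = x := by
          have h8 : IntermediateField.adjoin k₀ (Set.range w) ≤
              IntermediateField.fixedField (Subgroup.zpowers σ) := by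
            rw [IntermediateField.adjoin_le_iff]
            rintro _ ⟨i, rfl⟩
            rw [SetLike.mem_coe, IntermediateField.mem_fixedField_iff]
            intro τ hτ
            have h9 : σ (w i) = w i := by rw [hew, hcon i, Int.cast_one, one_mul]
            have h10 : Subgroup.zpowers σ ≤ MulAction.stabilizer G (w i) := by
              rw [Subgroup.zpowers_le, MulAction.mem_stabilizer_iff]
              exact h9
            exact h10 hτ
          intro x
          have h11 : x ∈ IntermediateField.fixedField (Subgroup.zpowers σ) := by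
            apply h8
            rw [hgen]
            trivial
          exact (IntermediateField.mem_fixedField_iff _ _).1 h11 σ (Subgroup.mem_zpowers σ)
        ext x
        exact h7 x
      have h7 : e σ i = -1 := (he σ i).resolve_left hi
      have h8 : ∏ i, (1 + (e σ i : ℚ)) = 0 := by
        apply Finset.prod_eq_zero (Finset.mem_univ i)
        rw [h7]
        norm_num
      rw [h8, add_zero, div_self hk, sub_self]
  · intro S
    obtain ⟨L, hkL, hSL, m, ⟨j⟩⟩ := huni S
    have hle : ∀ x ∈ FixedPoints.subalgebra ℂ K (H S), x ∈ L := by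
      intro x hx
      have h1 : x ∈ IntermediateField.fixedField
          (IntermediateField.fixingSubgroup (IntermediateField.adjoin k₀ {wS S})) := by
        rw [IntermediateField.mem_fixedField_iff]
        intro σ hσ
        have h2 : σ ∈ H S := by
          rw [MulAction.mem_stabilizer_iff]
          exact (IntermediateField.mem_fixingSubgroup_iff _ _).1 hσ _
            (IntermediateField.mem_adjoin_simple_self k₀ _)
        exact hx ⟨σ, h2⟩
      rw [IsGalois.fixedField_fixingSubgroup] at h1
      have h3 : (IntermediateField.adjoin k₀ {wS S}).restrictScalars ℂ ≤ L := by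
        intro z hz
        have h4 : IntermediateField.adjoin k₀ {wS S} ≤
            IntermediateField.extendScalars hkL := by
          rw [IntermediateField.adjoin_simple_le_iff]
          exact hSL
        exact h4 hz
      exact h3 h1
    let ε : FixedPoints.subalgebra ℂ K (H S) →ₐ[ℂ] L :=
      Subalgebra.inclusion (S := FixedPoints.subalgebra ℂ K (H S)) (T := L.toSubalgebra) hle
    exact ⟨m, j.comp ε, j.injective.comp (Subalgebra.inclusion_injective hle)⟩

end

end Pool.Agent.J4H13.BC
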