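import Pool.Agent.J4H13.BC.Res
import Pool.Agent.H470.Ext

/-!
# Lines in the affine space which dominates a quotient
-/

set_option autoImplicit false

open MvPolynomial

namespace Pool.Agent.J4H13.BC

open Pool.Agent.Helper397.HK

/-- the polynomial ring -/
abbrev PR (m : ℕ) : Type := MvPolynomial (Fin m) ℂ

section loc

variable {m : ℕ}

/-- the inclusion of a localization in the fraction field -/
noncomputable def locIncl (g : PR m) (hg : g ≠ 0) :
    Localization.Away g →ₐ[PR m] FractionRing (PR m) :=
  IsLocalization.liftAlgHom (M := Submonoid.powers g)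
    (f := Algebra.ofId (PR m) (FractionRing (PR m))) (by
      rintro ⟨_, n, rfl⟩
      change IsUnit (algebraMap (PR m) (FractionRing (PR m)) (g ^ n))
      rw [map_pow]
      refine IsUnit.pow n (isUnit_iff_ne_zero.2 ?_)
      rwa [Ne, map_eq_zero_iff _ (IsFractionRing.injective (PR m) (FractionRing (PR m)))])

lemma locIncl_mk (g : PR m) (hg : g ≠ 0) (p : PR m) :
    locIncl g hg (algebraMap _ _ p) = algebraMap _ _ p := (locIncl g hg).commutes p

lemma away_surj (g : PR m) (z : Localization.Away g) :
    ∃ (k : ℕ) (p : PR m), z * algebraMap (PR m) (Localization.Away g) g ^ k = algebraMap _ _ p := by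
  obtain ⟨⟨p, ⟨_, k, rfl⟩⟩, h⟩ := IsLocalization.surj (Submonoid.powers g) z
  refine ⟨k, p, ?_⟩
  rw [← map_pow]
  exact h

lemma locIncl_injective (g : PR m) (hg : g ≠ 0) : Function.Injective (locIncl g hg) := by
  rw [injective_iff_map_eq_zero]
  intro z hz
  obtain ⟨k, p, h⟩ := away_surj g z
  have h1 := congrArg (locIncl g hg) h
  rw [map_mul, hz, zero_mul, locIncl_mk] at h1
  have h2 : p = 0 := (map_eq_zero_iff _ (IsFractionRing.injective (PR m)
    (FractionRing (PR m)))).1 h1.symm
  rw [h2, map_zero] at h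
  have h3 : IsUnit (algebraMap (PR m) (Localization.Away g) g ^ k) :=
    (IsLocalization.Away.algebraMap_isUnit g).pow k
  exact (h3.mul_left_eq_zero).1 h

/-- homomorphisms from finitely generated algebras factor through a localization -/
theorem exists_away {B : Type} [CommRing B] [Algebra ℂ B] [Algebra.FiniteType ℂ B]
    (j : B →ₐ[ℂ] FractionRing (PR m)) (hj : Function.Injective j) :
    ∃ (g : PR m) (_ : g ≠ 0) (j' : B →ₐ[ℂ] Localization.Away g), Function.Injective j' := by
  classical
  obtain ⟨s, hs⟩ := (inferInstance : Algebra.FiniteType ℂ B).out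
  obtain ⟨⟨g, hg⟩, hgs⟩ := IsLocalization.exist_integer_multiples_of_finset
    (nonZeroDivisors (PR m)) (s.image j)
  have hg0 : g ≠ 0 := nonZeroDivisors.ne_zero hg
  refine ⟨g, hg0, ?_⟩
  let ι : Localization.Away g →ₐ[ℂ] FractionRing (PR m) := (locIncl g hg0).restrictScalars ℂ
  have hι : Function.Injective ι := locIncl_injective g hg0
  have hιg : ι (algebraMap (PR m) (Localization.Away g) g) = algebraMap _ _ g :=
    locIncl_mk g hg0 g
  have hgF : (algebraMap (PR m) (FractionRing (PR m)) g) ≠ 0 := by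
    rwa [Ne, map_eq_zero_iff _ (IsFractionRing.injective (PR m) (FractionRing (PR m)))]
  have hrange : ∀ b, j b ∈ ι.range := by
    have h1 : (⊤ : Subalgebra ℂ B) ≤ ι.range.comap j := by
      rw [← hs]
      apply Algebra.adjoin_le
      intro b hb
      change j b ∈ ι.range
      obtain ⟨p, hp⟩ := hgs (j b) (Finset.mem_image_of_mem j hb)
      refine ⟨algebraMap _ _ p * IsLocalization.Away.invSelf g, ?_⟩
      have h2 := congrArg ι (IsLocalization.Away.mul_invSelf (S := Localization.Away g) g)
      rw [map_mul, map_one, hιg] at h2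
      change ι _ = _
      rw [map_mul, show ι (algebraMap _ _ p) = algebraMap _ _ p from locIncl_mk g hg0 p, hp,
        Algebra.smul_def]
      change algebraMap (PR m) (FractionRing (PR m)) g * j b * _ = j b
      rw [mul_comm _ (j b), mul_assoc, h2, mul_one]
    intro b
    exact h1 trivial
  refine ⟨(AlgEquiv.ofInjective ι hι).symm.toAlgHom.comp (j.codRestrict ι.range hrange), ?_⟩
  intro b b' h
  have h1 : (j.codRestrict ι.range hrange) b = (j.codRestrict ι.range hrange) b' :=
    (AlgEquiv.ofInjective ι hι).symm.injective h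
  exact hj (congrArg Subtype.val h1)

end loc

section line

variable {m : ℕ}

/-- the rational functions in one variable -/
abbrev F1 : Type := FractionRing (Polynomial ℂ)

/-- the polynomial map given by a line -/
noncomputable def lineP (s s' : Fin m → ℂ) : PR m →ₐ[ℂ] Polynomial ℂ :=
  aeval (fun i => Polynomial.C (s i) + Polynomial.C (s' i - s i) * Polynomial.X)

lemma lineP_zero (s s' : Fin m → ℂ) (p : PR m) : (lineP s s' p).eval 0 = aeval s p := by
  have h1 := MvPolynomial.comp_aeval_apply
    (fun i => Polynomial.C (s i) + Polynomial.C (s' i - s i) * Polynomial.X)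
    (Polynomial.aeval (0 : ℂ) : Polynomial ℂ →ₐ[ℂ] ℂ) p
  rw [Polynomial.coe_aeval_eq_eval] at h1
  refine h1.trans ?_
  congr 2
  funext i
  simp

lemma lineP_one (s s' : Fin m → ℂ) (p : PR m) : (lineP s s' p).eval 1 = aeval s' p := by
  have h1 := MvPolynomial.comp_aeval_apply
    (fun i => Polynomial.C (s i) + Polynomial.C (s' i - s i) * Polynomial.X)
    (Polynomial.aeval (1 : ℂ) : Polynomial ℂ →ₐ[ℂ] ℂ) p
  rw [Polynomial.coe_aeval_eq_eval] at h1
  refine h1.trans ?_
  congr 2
  funext i
  simp

/-- Two points of a localization of the affine space are on a line. -/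
theorem exists_line {g : PR m} (l l' : Localization.Away g →ₐ[ℂ] ℂ) :
    ∃ θ : Localization.Away g →ₐ[ℂ] F1, ∀ (M : Type) [Field M] [Algebra ℂ M] (i : F1 →ₐ[ℂ] M)
      (V : ValuationSubring M), (∀ c : ℂ, algebraMap ℂ M c ∈ V) → ∀ t : M,
      t = i (algebraMap (Polynomial ℂ) F1 Polynomial.X) →
      (t ∈ V.nonunits → ∀ z, i (θ z) - algebraMap ℂ M (l z) ∈ V.nonunits) ∧
      (t - 1 ∈ V.nonunits → ∀ z, i (θ z) - algebraMap ℂ M (l' z) ∈ V.nonunits) := by
  classical
  let s : Fin m → ℂ := fun i => l (algebraMap (PR m) _ (X i))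
  let s' : Fin m → ℂ := fun i => l' (algebraMap (PR m) _ (X i))
  have hl : ∀ p : PR m, l (algebraMap _ _ p) = aeval s p := by
    intro p
    have h1 : (l.comp (Algebra.algHom ℂ (PR m) (Localization.Away g))) =
        aeval s := MvPolynomial.algHom_ext fun i => by
          rw [aeval_X]
          rfl
    rw [← h1]
    rfl
  have hl' : ∀ p : PR m, l' (algebraMap _ _ p) = aeval s' p := by
    intro p
    have h1 : (l'.comp (Algebra.algHom ℂ (PR m) (Localization.Away g))) =
        aeval s' := MvPolynomial.algHom_ext fun i => by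
          rw [aeval_X]
          rfl
    rw [← h1]
    rfl
  have hg : aeval s g ≠ 0 := by
    intro h
    have h2 := congrArg l (IsLocalization.Away.mul_invSelf (S := Localization.Away g) g)
    rw [map_mul, map_one, hl, h, zero_mul] at h2
    exact zero_ne_one h2
  have hg' : aeval s' g ≠ 0 := by
    intro h
    have h2 := congrArg l' (IsLocalization.Away.mul_invSelf (S := Localization.Away g) g)
    rw [map_mul, map_one, hl', h, zero_mul] at h2
    exact zero_ne_one h2
  have hline : lineP s s' g ≠ 0 := by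
    intro h
    apply hg
    rw [← lineP_zero s s', h, Polynomial.eval_zero]
  have hinj : Function.Injective (algebraMap (Polynomial ℂ) F1) :=
    IsFractionRing.injective (Polynomial ℂ) F1
  let θ₀ : PR m →ₐ[ℂ] F1 := (Algebra.algHom ℂ (Polynomial ℂ) F1).comp (lineP s s')
  have hunit : ∀ y : Submonoid.powers g, IsUnit (θ₀ y) := by
    rintro ⟨_, n, rfl⟩
    change IsUnit (θ₀ (g ^ n))
    rw [map_pow]
    refine IsUnit.pow n (isUnit_iff_ne_zero.2 ?_)
    change algebraMap (Polynomial ℂ) F1 (lineP s s' g) ≠ 0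
    rwa [Ne, map_eq_zero_iff _ hinj]
  let θ : Localization.Away g →ₐ[ℂ] F1 :=
    { IsLocalization.lift (M := Submonoid.powers g) (g := (θ₀ : PR m →+* F1)) hunit with
      commutes' := by
        intro c
        change IsLocalization.lift (M := Submonoid.powers g) (g := (θ₀ : PR m →+* F1)) hunit
          (algebraMap ℂ (Localization.Away g) c) = _
        rw [IsScalarTower.algebraMap_apply ℂ (PR m) (Localization.Away g),
          IsLocalization.lift_eq]
        exact θ₀.commutes c }
  have hθ : ∀ p : PR m, θ (algebraMap _ _ p) = algebraMap (Polynomial ℂ) F1 (lineP s s' p) := by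
    intro p
    change IsLocalization.lift (M := Submonoid.powers g) (g := (θ₀ : PR m →+* F1)) hunit
          (algebraMap (PR m) (Localization.Away g) p) = _
    rw [IsLocalization.lift_eq]
    rfl
  refine ⟨θ, ?_⟩
  intro M _ _ i V hC t ht
  -- values of polynomials
  have hpol : ∀ q : Polynomial ℂ, i (algebraMap (Polynomial ℂ) F1 q) = Polynomial.aeval t q := by
    intro q
    have h1 : (i.comp (Algebra.algHom ℂ (Polynomial ℂ) F1)) = Polynomial.aeval t := by
      apply Polynomial.algHom_ext
      rw [Polynomial.aeval_X, ht]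
      rfl
    rw [← h1]
    rfl
  have key : ∀ (c₀ : ℂ) (s₀ : Fin m → ℂ) (l₀ : Localization.Away g →ₐ[ℂ] ℂ),
      (∀ p : PR m, l₀ (algebraMap _ _ p) = aeval s₀ p) →
      (∀ p, (lineP s s' p).eval c₀ = aeval s₀ p) → aeval s₀ g ≠ 0 →
      t - algebraMap ℂ M c₀ ∈ V.nonunits → ∀ z, i (θ z) - algebraMap ℂ M (l₀ z) ∈ V.nonunits := by
    intro c₀ s₀ l₀ hl₀ hev hg₀ htV z
    have htV' : t ∈ V := mem_of_sub hC htV
    have h1 : ∀ p : PR m, i (θ (algebraMap _ _ p)) - algebraMap ℂ M (aeval s₀ p) ∈ V.nonunits := by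
      intro p
      rw [hθ, hpol, ← hev]
      exact aeval_sub_mem hC htV' htV _
    obtain ⟨k, p, hp⟩ := away_surj g z
    have hG := h1 g
    set G : M := i (θ (algebraMap _ _ g)) with hGdef
    have hGn : G ∉ V.nonunits := notMem_nonunits_of_sub hC hg₀ hG
    have hGV : G ∈ V := mem_of_sub hC hG
    have hG0 : G ≠ 0 := fun h => hGn (by rw [h]; exact V.nonunits.zero_mem)
    have hinvV : (G ^ k)⁻¹ ∈ V := by
      rw [← inv_pow]
      exact pow_mem (show G⁻¹ ∈ V from inv_mem_of_notMem_nonunits hGn) k
    have h2 : i (θ z) * G ^ k = i (θ (algebraMap _ _ p)) := by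
      rw [← hp, map_mul, map_mul, map_pow, map_pow]
    have h3 : l₀ z * (aeval s₀ g) ^ k = aeval s₀ p := by
      rw [← hl₀, ← hl₀, ← hp, map_mul, map_pow]
    have h4 : G ^ k - algebraMap ℂ M ((aeval s₀ g) ^ k) ∈ V.nonunits := by
      have h5 := h1 (g ^ k)
      rw [map_pow, map_pow, map_pow, map_pow] at h5
      exact h5
    have h6 := V.nonunits.sub_mem (h1 p) (nonunits_mul (hC (l₀ z)) h4)
    have h7 := nonunits_mul hinvV h6
    convert h7 using 1
    rw [← h2, ← h3, map_mul, map_pow]
    have h8 : G ^ k ≠ 0 := pow_ne_zero k hG0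
    field_simp
    ring
  refine ⟨fun h => key 0 s l hl (lineP_zero s s') hg ?_, fun h => key 1 s' l' hl' (lineP_one s s') hg' ?_⟩
  · rwa [map_zero, sub_zero]
  · rwa [map_one]

end line

end Pool.Agent.J4H13.BC
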