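import Pool.Agent.J4H13.BC.Move
import Pool.Agent.Helper397.HK.Locus

/-!
# Zero-cycles on the surfaces with enough unirational quotients
-/

set_option autoImplicit false

open MvPolynomial

namespace Pool.Agent.J4H13.BC

open Pool.Agent.Helper397.HK

section stable

variable {K : Type} [Field K] [Algebra ℂ K] {G : Type} [Group G] [MulSemiringAction G K]
  [SMulCommClass G ℂ K]

/-- the action on a stable subalgebra -/
@[reducible] def stableAction (A : Subalgebra ℂ K) (hA : ∀ (σ : G) (a : K), a ∈ A → σ • a ∈ A) :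
    MulSemiringAction G A where
  smul σ a := ⟨σ • a.1, hA σ a.1 a.2⟩
  one_smul a := Subtype.ext (one_smul G a.1)
  mul_smul σ τ a := Subtype.ext (mul_smul σ τ a.1)
  smul_zero σ := Subtype.ext (smul_zero σ)
  smul_add σ a b := Subtype.ext (smul_add σ a.1 b.1)
  smul_one σ := Subtype.ext (smul_one σ)
  smul_mul σ a b := Subtype.ext (smul_mul' σ a.1 b.1)

end stable

open scoped Classical in
/-- **The machine.** -/
theorem machine {K : Type} [Field K] [Algebra ℂ K] (G : Type) [Group G] [Finite G]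
    [MulSemiringAction G K] [SMulCommClass G ℂ K] {ι : Type} [Fintype ι] (H : ι → Subgroup G)
    (c : ι → ℚ) (hcoef : ∀ σ : G, ∑ i, (if σ ∈ H i then c i else 0) = if σ = 1 then 1 else 0)
    (huni : ∀ i, ∃ (m : ℕ) (j : FixedPoints.subalgebra ℂ K (H i) →ₐ[ℂ] FractionRing (PR m)),
      Function.Injective j) {N : ℕ} (ξ : Fin (N + 1) → K) (hξ : ξ ≠ 0) :
    ∀ a b : (locus ξ hξ).Pts ℂ, cls a = cls b := by
  have hG : Fintype G := Fintype.ofFinite G
  obtain ⟨Y, hY⟩ : ∃ Y : ProjVar N, Y = locus ξ hξ := ⟨_, rfl⟩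
  rw [← hY]
  have hYmem : ∀ F, F ∈ Y.I ↔ coneHom ξ F = 0 := by
    intro F
    rw [hY]
    rfl
  have hξY : Y.OnCone ξ := by
    rw [hY]
    exact (mem_pts_locus ξ hξ).2
  -- the algebra
  obtain ⟨A, hAdef⟩ : ∃ A : Subalgebra ℂ K,
    A = Algebra.adjoin ℂ (Set.range fun p : G × Fin (N + 1) => p.1 • ξ p.2) := ⟨_, rfl⟩
  have hAst : ∀ (σ : G) (a : K), a ∈ A → σ • a ∈ A := by
    intro σ a ha
    have h1 : A ≤ A.comap (MulSemiringAction.toAlgHom ℂ K σ) := by
      conv_lhs => rw [hAdef]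
      apply Algebra.adjoin_le
      rintro _ ⟨⟨τ, i⟩, rfl⟩
      change σ • (τ • ξ i) ∈ A
      rw [smul_smul, hAdef]
      exact Algebra.subset_adjoin ⟨(σ * τ, i), rfl⟩
    exact h1 ha
  have hAξ : ∀ i, ξ i ∈ A := by
    intro i
    rw [hAdef]
    exact Algebra.subset_adjoin ⟨(1, i), one_smul G _⟩
  have hAft : Algebra.FiniteType ℂ A := by
    rw [← Subalgebra.fg_iff_finiteType, hAdef]
    exact Subalgebra.fg_def.2 ⟨_, Set.finite_range _, rfl⟩
  let _ : MulSemiringAction G A := stableAction A hAst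
  have hcomm : SMulCommClass G ℂ A := ⟨fun σ z a => Subtype.ext (smul_comm σ z a.1)⟩
  let η : Fin (N + 1) → A := fun i => ⟨ξ i, hAξ i⟩
  have hη : Y.OnCone η := ProjVar.OnCone.of_injective A.val Subtype.val_injective hξY
  obtain ⟨i₀, hi₀⟩ := Function.ne_iff.1 hξ
  have hηi₀ : η i₀ ≠ 0 := fun h => hi₀ (congrArg Subtype.val h)
  -- the orbits
  have horb : ∀ i : ι, ∃ h : A, h ≠ 0 ∧ ∀ φ φ' : A →ₐ[ℂ] ℂ, φ h ≠ 0 → φ' h ≠ 0 →
      (∀ σ : G, (fun i => act φ σ (η i)) ∈ Y.Pts ℂ) →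
      (∀ σ : G, (fun i => act φ' σ (η i)) ∈ Y.Pts ℂ) →
      ∑ σ : H i, hc Y η (act φ (σ : G)) = ∑ σ : H i, hc Y η (act φ' (σ : G)) := by
    intro i
    obtain ⟨m, j, hj⟩ := huni i
    let ε : FixedPoints.subalgebra ℂ A (H i) →ₐ[ℂ] FixedPoints.subalgebra ℂ K (H i) :=
      (A.val.comp (FixedPoints.subalgebra ℂ A (H i)).val).codRestrict _ (by
        rintro ⟨a, ha⟩ σ
        exact congrArg Subtype.val (ha σ))
    have hε : Function.Injective ε := by
      intro a b hab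
      have h1 : (a.1.1 : K) = b.1.1 :=
        congrArg (fun z : FixedPoints.subalgebra ℂ K (H i) => (z : K)) hab
      exact Subtype.ext (Subtype.ext h1)
    obtain ⟨h, hh, hor⟩ := orbit_sum (A := A) (H := H i) (j.comp ε) (hj.comp hε)
    refine ⟨h, hh, ?_⟩
    intro φ φ' hφ hφ' hp hp'
    exact hor hη φ φ' hφ hφ' (fun σ => hp σ) (fun σ => hp' σ)
  choose h hh hor using horb
  obtain ⟨h₀, hh₀⟩ : ∃ h₀ : A, h₀ = (∏ i, ∏ σ : G, σ • h i) * ∏ σ : G, σ • η i₀ := ⟨_, rfl⟩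
  have hsm : ∀ (σ : G) (a : A), a ≠ 0 → σ • a ≠ 0 := by
    intro σ a ha h1
    apply ha
    have h2 := congrArg (σ⁻¹ • ·) h1
    simpa using h2
  have hh₀0 : h₀ ≠ 0 := by
    rw [hh₀]
    refine mul_ne_zero (Finset.prod_ne_zero_iff.2 fun i _ => Finset.prod_ne_zero_iff.2
      fun σ _ => hsm σ _ (hh i)) (Finset.prod_ne_zero_iff.2 fun σ _ => hsm σ _ hηi₀)
  have hgoodη : ∀ φ : A →ₐ[ℂ] ℂ, φ h₀ ≠ 0 → ∀ σ : G, (fun i => act φ σ (η i)) ∈ Y.Pts ℂ := by
    intro φ hφ σ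
    refine ⟨fun h1 => ?_, hη.map _⟩
    have h2 : φ (σ • η i₀) = 0 := congrFun h1 i₀
    apply hφ
    rw [hh₀, map_mul, map_prod φ (fun σ : G => σ • η i₀), Finset.prod_eq_zero (Finset.mem_univ σ) h2,
      mul_zero]
  have hgoodh : ∀ φ : A →ₐ[ℂ] ℂ, φ h₀ ≠ 0 → ∀ i, φ (h i) ≠ 0 := by
    intro φ hφ i h1
    apply hφ
    rw [hh₀, map_mul, map_prod, Finset.prod_eq_zero (Finset.mem_univ i), zero_mul]
    rw [map_prod]
    exact Finset.prod_eq_zero (Finset.mem_univ 1) (by rw [one_smul]; exact h1)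
  have hact1 : ∀ φ : A →ₐ[ℂ] ℂ, act φ (1 : G) = φ := by
    intro φ
    ext a
    rw [act_apply, one_smul]
  -- good points are rationally equivalent
  have hsum : ∀ φ : A →ₐ[ℂ] ℂ, hc Y η φ = ∑ i, c i • ∑ σ : H i, hc Y η (act φ (σ : G)) := by
    intro φ
    have h1 : ∀ i, ∑ σ : H i, hc Y η (act φ (σ : G)) =
        ∑ σ : G, if σ ∈ H i then hc Y η (act φ σ) else 0 := by
      intro i
      rw [← Finset.sum_filter]
      exact (Finset.sum_subtype (Finset.univ.filter fun σ => σ ∈ H i) (p := fun σ => σ ∈ H i)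
        (fun x => by simp) (fun σ => hc Y η (act φ σ))).symm
    simp only [h1, Finset.smul_sum]
    rw [Finset.sum_comm]
    have h2 : ∀ σ : G, ∑ i, c i • (if σ ∈ H i then hc Y η (act φ σ) else 0) =
        (if σ = 1 then (1 : ℚ) else 0) • hc Y η (act φ σ) := by
      intro σ
      rw [← hcoef σ, Finset.sum_smul]
      refine Finset.sum_congr rfl fun i _ => ?_
      by_cases hi : σ ∈ H i
      · rw [if_pos hi, if_pos hi]
      · rw [if_neg hi, if_neg hi, smul_zero, zero_smul]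
    rw [Finset.sum_congr rfl fun σ _ => h2 σ, Finset.sum_eq_single (1 : G)]
    · rw [if_pos rfl, one_smul, hact1]
    · intro σ _ hσ
      rw [if_neg hσ, zero_smul]
    · intro h3
      exact absurd (Finset.mem_univ _) h3
  have hgood : ∀ φ φ' : A →ₐ[ℂ] ℂ, φ h₀ ≠ 0 → φ' h₀ ≠ 0 → hc Y η φ = hc Y η φ' := by
    intro φ φ' hφ hφ'
    rw [hsum φ, hsum φ']
    refine Finset.sum_congr rfl fun i _ => ?_
    rw [hor i φ φ' (hgoodh φ hφ i) (hgoodh φ' hφ' i) (hgoodη φ hφ) (hgoodη φ' hφ')]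
  obtain ⟨φ₀, hφ₀⟩ : ∃ φ₀ : A →ₐ[ℂ] ℂ, φ₀ h₀ ≠ 0 := by
    obtain ⟨z, hz, hext⟩ := generic_ext (Algebra.ofId ℂ A) (algebraMap ℂ A).injective h₀ hh₀0
    obtain ⟨l, -, hl⟩ := hext (AlgHom.id ℂ ℂ) hz
    exact ⟨l, hl⟩
  -- moving
  let j₀ : MvPolynomial (Fin (N + 1)) ℂ →ₐ[ℂ] Polynomial A :=
    aeval (fun i => Polynomial.X * Polynomial.C (η i))
  let μ : Polynomial A →ₐ[ℂ] Polynomial K := Polynomial.mapAlgHom A.val
  have hμ : Function.Injective μ := Polynomial.map_injective _ Subtype.val_injective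
  have hμj : ∀ F, μ (j₀ F) = coneHom ξ F := by
    intro F
    have h1 : μ.comp j₀ = coneHom ξ := MvPolynomial.algHom_ext fun i => by
      change μ (aeval _ (X i)) = aeval _ (X i)
      rw [aeval_X, aeval_X]
      change Polynomial.map _ _ = _
      rw [Polynomial.map_mul, Polynomial.map_X, Polynomial.map_C]
      rfl
    rw [← h1]
    rfl
  have hker : ∀ F, j₀ F = 0 ↔ F ∈ Y.I := by
    intro F
    rw [hYmem, ← hμj, map_eq_zero_iff μ hμ]
  let j : (MvPolynomial (Fin (N + 1)) ℂ ⧸ Y.I) →ₐ[ℂ] Polynomial A :=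
    Ideal.Quotient.liftₐ Y.I j₀ (fun F hF => (hker F).2 hF)
  have hjmk : ∀ F, j (Ideal.Quotient.mk Y.I F) = j₀ F := fun F => rfl
  have hj : Function.Injective j := by
    rw [injective_iff_map_eq_zero]
    intro z hz
    obtain ⟨F, rfl⟩ := Ideal.Quotient.mk_surjective z
    rw [hjmk, hker] at hz
    exact Ideal.Quotient.eq_zero_iff_mem.2 hz
  have hjX : ∀ i, j (Ideal.Quotient.mk Y.I (X i)) = Polynomial.X * Polynomial.C (η i) := by
    intro i
    rw [hjmk]
    exact aeval_X _ i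
  have htrans : ∃ a : MvPolynomial (Fin (N + 1)) ℂ ⧸ Y.I, Transcendental ℂ a := by
    refine ⟨Ideal.Quotient.mk Y.I (X i₀), fun halg => ?_⟩
    have h1 := halg.algHom j
    rw [hjX] at h1
    have h2 := h1.algHom μ
    have h3 : μ (Polynomial.X * Polynomial.C (η i₀)) = Polynomial.X * Polynomial.C (ξ i₀) := by
      change Polynomial.map _ _ = _
      rw [Polynomial.map_mul, Polynomial.map_X, Polynomial.map_C]
      rfl
    rw [h3] at h2
    have h4 : IsAlgebraic K (Polynomial.X * Polynomial.C (ξ i₀)) := h2.tower_top K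
    have h5 := h4.mul (isAlgebraic_algebraMap (R := K) (A := Polynomial K) (ξ i₀)⁻¹)
    rw [Polynomial.algebraMap_eq, mul_assoc, ← Polynomial.C_mul, mul_inv_cancel₀ hi₀,
      Polynomial.C_1, mul_one] at h5
    exact Polynomial.transcendental_X K h5
  have hall : ∀ w : Y.Pts ℂ, cls w = hc Y η φ₀ := by
    intro w
    refine move j hj (D := Polynomial.C h₀ * Polynomial.X) (mul_ne_zero
      (Polynomial.C_ne_zero.2 hh₀0) Polynomial.X_ne_zero) htrans _ ?_ w
    intro l hl p hp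
    let φ : A →ₐ[ℂ] ℂ := l.comp (Polynomial.CAlgHom)
    rw [map_mul] at hl
    have hφ : φ h₀ ≠ 0 := left_ne_zero_of_mul hl
    rw [← hgood φ φ₀ hφ hφ₀]
    obtain ⟨h1, h2⟩ := hasCls_hc (η := η) (φ := φ) (by
      have := hgoodη φ hφ 1
      rwa [hact1] at this)
    rw [← h2]
    symm
    apply cls_eq_of_smul (c := l Polynomial.X)
    funext i
    rw [hp, hjX, map_mul]
    rfl
  intro a b
  rw [hall a, hall b]

end Pool.Agent.J4H13.BC
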