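import Pool.Agent.J4H13.BC.Orbit

/-!
# Moving points
-/

set_option autoImplicit false

open MvPolynomial

namespace Pool.Agent.J4H13.BC

open Pool.Agent.Helper397.HK

lemma exists_res_place {K : Type} [Field K] [Algebra ℂ K] (hK : CurveField K) {u : K}
    (hu : Transcendental ℂ u) {P : Ideal (Aff u)} (hP : P.IsMaximal) (hP0 : P ≠ ⊥)
    {V : ValuationSubring K} (hB : ∀ b : Aff u, (b : K) ∈ V) (hV : centre (Aff u) V hB = P) {x : K}
    (hx : x ∈ V) : ∃ c : ℂ, x - algebraMap ℂ K c ∈ V.nonunits := by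
  obtain ⟨β, δ, hδ, hxδ⟩ := exists_quotient hK hu hB (by rw [hV]; exact hP0) hx
  obtain ⟨b, hb⟩ := exists_residue hK hu P β
  obtain ⟨d, hd⟩ := exists_residue hK hu P δ
  have hC : ∀ c : ℂ, algebraMap ℂ K c ∈ V := fun c => C_mem_of_aff hB c
  have hPV : ∀ z ∈ P, (z : K) ∈ V.nonunits := by
    intro z hz
    rw [← hV] at hz
    exact hz
  have hb' : (β : K) - algebraMap ℂ K b ∈ V.nonunits := hPV _ hb
  have hd' : (δ : K) - algebraMap ℂ K d ∈ V.nonunits := hPV _ hd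
  have hd0 : d ≠ 0 := by
    rintro rfl
    apply hδ
    rw [map_zero, sub_zero] at hd'
    exact hd'
  have hδ0 : (δ : K) ≠ 0 := fun h => hδ (by rw [h]; exact V.nonunits.zero_mem)
  refine ⟨b / d, ?_⟩
  have h1 := V.nonunits.sub_mem hb' (nonunits_mul (hC (b / d)) hd')
  have h2 := nonunits_mul (inv_mem_of_notMem_nonunits hδ) h1
  convert h2 using 1
  rw [← hxδ, map_div₀]
  have h3 : algebraMap ℂ K d ≠ 0 := (map_ne_zero _).2 hd0
  field_simp
  ring

/-- **Moving.** -/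
theorem move {N : ℕ} {Y : ProjVar N} {L : Type} [CommRing L] [IsDomain L] [Algebra ℂ L]
    [Algebra.FiniteType ℂ L] (j : (MvPolynomial (Fin (N + 1)) ℂ ⧸ Y.I) →ₐ[ℂ] L)
    (hj : Function.Injective j) {D : L} (hD : D ≠ 0)
    (htrans : ∃ a : MvPolynomial (Fin (N + 1)) ℂ ⧸ Y.I, Transcendental ℂ a) (c₀ : CH0 Y)
    (hgood : ∀ l : L →ₐ[ℂ] ℂ, l D ≠ 0 → ∀ p : Y.Pts ℂ,
      (∀ i, p.1 i = l (j (Ideal.Quotient.mk Y.I (X i)))) → cls p = c₀) (w : Y.Pts ℂ) :
    cls w = c₀ := by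
  classical
  have hYp := Y.prime
  obtain ⟨h, hh, hext⟩ := generic_ext j hj D hD
  obtain ⟨K, _, _, s₀, ρ, V₀, hs₀, hK, hρh, hint, hsV₀, hρV, hρV₀⟩ :=
    exists_curve (Y.evAt w) hh htrans
  let y : Fin (N + 1) → K := fun i => ρ (Ideal.Quotient.mk Y.I (X i))
  have hC₀ : ∀ c : ℂ, algebraMap ℂ K c ∈ V₀ := fun c => by
    rw [← ρ.commutes c]
    exact hρV _
  have hyV₀ : ∀ i, y i - algebraMap ℂ K (w.1 i) ∈ V₀.nonunits := by
    intro i
    have h1 := hρV₀ (Ideal.Quotient.mk Y.I (X i))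
    rw [Y.evAt_mk, aeval_X] at h1
    exact h1
  have hρmk : ∀ F, ρ (Ideal.Quotient.mk Y.I F) = aeval y F := by
    intro F
    have h1 : (ρ.comp (Ideal.Quotient.mkₐ ℂ Y.I)) = aeval y :=
      MvPolynomial.algHom_ext fun i => by
        rw [aeval_X]
        rfl
    rw [← h1]
    rfl
  have hy : y ∈ Y.Pts K := by
    constructor
    · obtain ⟨i, hi⟩ := Function.ne_iff.1 w.2.1
      intro h0
      apply notMem_nonunits_of_sub hC₀ hi (hyV₀ i)
      rw [congrFun h0 i]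
      exact V₀.nonunits.zero_mem
    · intro F hF
      rw [← hρmk, Ideal.Quotient.eq_zero_iff_mem.2 hF, map_zero]
  obtain ⟨i₀, hi₀⟩ := Function.ne_iff.1 w.2.1
  have hyi₀ : y i₀ ≠ 0 := by
    intro h0
    apply notMem_nonunits_of_sub hC₀ hi₀ (hyV₀ i₀)
    rw [h0]
    exact V₀.nonunits.zero_mem
  -- the polynomial `π`
  have hbint : ∀ x : MvPolynomial (Fin (N + 1)) ℂ ⧸ Y.I, ρ x ∈ Aff s₀ := hint
  let b : Aff s₀ := ⟨y i₀ * ρ h, (Aff s₀).mul_mem (hbint _) (hbint _)⟩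
  have hb : b ≠ 0 := fun h0 => (mul_ne_zero hyi₀ hρh) (congrArg Subtype.val h0)
  obtain ⟨⟨r, hr⟩, hr0, ⟨q, hq⟩⟩ := (Algebra.IsIntegral.isIntegral (R := Algebra.adjoin ℂ {s₀})
    b).isAlgebraic.exists_nonzero_dvd (mem_nonZeroDivisors_of_ne_zero hb)
  have hr' := hr
  rw [Algebra.adjoin_singleton_eq_range_aeval] at hr'
  obtain ⟨π, hπ⟩ := hr'
  have hπr : Polynomial.aeval s₀ π = r := hπ
  have hπ0 : π ≠ 0 := by
    rintro rfl
    apply hr0
    apply Subtype.ext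
    change r = 0
    rw [← hπr, map_zero]
  have hπb : Polynomial.aeval s₀ π = (y i₀ * ρ h) * (q : K) := by
    rw [hπr]
    exact congrArg Subtype.val hq
  obtain ⟨u, hu, huV₀, hu1, hu2⟩ := exists_mover hK hs₀ hC₀ hsV₀ hπ0
  -- the good places
  have hgoodV : ∀ V : ValuationSubring K, (∀ c : ℂ, algebraMap ℂ K c ∈ V) →
      (∀ x ∈ V, ∃ c : ℂ, x - algebraMap ℂ K c ∈ V.nonunits) →
      (s₀ ∈ V ∧ Polynomial.aeval s₀ π ∉ V.nonunits) → ∀ (p : Y.Pts ℂ),
      (∃ c : K, ∀ i, c * y i - algebraMap ℂ K (p.1 i) ∈ V.nonunits) → cls p = c₀ := by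
    rintro V hC hres ⟨hsV, hπV⟩ p ⟨c, hc⟩
    have hBV : ∀ x : Aff s₀, (x : K) ∈ V := aff_le hC hsV
    obtain ⟨β, hβ⟩ := exists_resHom hC ρ (fun a => hres _ (hBV ⟨ρ a, hbint a⟩))
    have hρhV : ρ h ∉ V.nonunits := by
      intro h1
      apply hπV
      rw [hπb, mul_right_comm]
      exact nonunits_mul (V.mul_mem _ _ (hBV ⟨_, hbint _⟩) (hBV q)) h1
    have hyV : y i₀ ∉ V.nonunits := by
      intro h1
      apply hπV
      rw [hπb, mul_assoc, mul_comm]
      exact nonunits_mul (V.mul_mem _ _ (hBV ⟨_, hbint _⟩) (hBV q)) h1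
    have hβh : β h ≠ 0 := by
      intro h1
      have h2 := hβ h
      rw [h1, map_zero, sub_zero] at h2
      exact hρhV h2
    obtain ⟨l, hl, hlD⟩ := hext β hβh
    have hβi : β (Ideal.Quotient.mk Y.I (X i₀)) ≠ 0 := by
      intro h1
      have h2 := hβ (Ideal.Quotient.mk Y.I (X i₀))
      rw [h1, map_zero, sub_zero] at h2
      exact hyV h2
    have hpt : (fun i => β (Ideal.Quotient.mk Y.I (X i))) ∈ Y.Pts ℂ := by
      constructor
      · intro h1
        exact hβi (congrFun h1 i₀)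
      · intro F hF
        have h1 : (β.comp (Ideal.Quotient.mkₐ ℂ Y.I)) =
            aeval (fun i => β (Ideal.Quotient.mk Y.I (X i))) :=
          MvPolynomial.algHom_ext fun i => by
            rw [aeval_X]
            rfl
        rw [← h1]
        change β (Ideal.Quotient.mk Y.I F) = 0
        rw [Ideal.Quotient.eq_zero_iff_mem.2 hF, map_zero]
    have h3 := hgood l hlD ⟨_, hpt⟩ (fun i => (hl _).symm)
    rw [← h3]
    apply cls_eq_of_prop
    intro a b
    have h4 : ∀ i, y i - algebraMap ℂ K (β (Ideal.Quotient.mk Y.I (X i))) ∈ V.nonunits :=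
      fun i => hβ _
    exact value_prop hC h4 hc (fun a b => by ring) a b
  -- the place `V₀`
  have hV₀ : ∀ (p : Y.Pts ℂ),
      (∃ c : K, ∀ i, c * y i - algebraMap ℂ K (p.1 i) ∈ V₀.nonunits) → cls w = cls p := by
    rintro p ⟨c, hc⟩
    apply cls_eq_of_prop
    intro a b
    exact value_prop hC₀ hc hyV₀ (fun a b => by ring) a b
  -- the zeros and the poles of `u`
  have hu' : Transcendental ℂ u⁻¹ := fun h0 => hu (by
    have := h0.inv
    rwa [inv_inv] at this)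
  obtain ⟨r₁, P, hP, hP0, hPp⟩ := exists_factors hK hu
  obtain ⟨r₂, Q, hQ, hQ0, hQq⟩ := exists_factors hK hu'
  choose p hp using fun i => exists_value hK hu (P i) (hP i) (hP0 i) hy
  choose q₁ hq₁ using fun i => exists_value hK hu' (Q i) (hQ i) (hQ0 i) hy
  have rel := cls_relation hK hu hy hP hPp hp hQ hQq hq₁
  obtain ⟨hr12, -⟩ := card_zeros_eq hK hu hP hPp hQ hQq
  have hmem : ∀ {v : K} {r : ℕ} {P : Fin r → Ideal (Aff v)},
      ∏ j, P j = Ideal.span {b : Aff v | (b : K) = v} → ∀ j, (⟨v, self_mem_aff v⟩ : Aff v) ∈ P j := by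
    intro v r P hPp j
    have h1 : (⟨v, self_mem_aff v⟩ : Aff v) ∈ ∏ j, P j := by
      rw [hPp]
      exact Ideal.subset_span rfl
    exact (Ideal.prod_le_inf.trans (Finset.inf_le (Finset.mem_univ j))) h1
  have key₂ : ∀ j, cls (q₁ j) = c₀ := by
    intro j
    obtain ⟨V, hB, hV⟩ := exists_place_of_maximal (Q j) (hQ j)
    have hV' : ∀ b ∈ Q j, (b : K) ∈ V.nonunits := fun b hb => by
      rw [← hV] at hb; exact hb
    have hCV : ∀ c : ℂ, algebraMap ℂ K c ∈ V := fun c => C_mem_of_aff hB c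
    exact hgoodV V hCV (fun x hx => exists_res_place hK hu' (hQ j) (hQ0 j) hB hV hx)
      (hu2 V hCV (hV' _ (hmem hQq j))) _ ((hq₁ j).sub_mem hV')
  have key₁ : ∀ j, cls (p j) = c₀ ∨ cls (p j) = cls w := by
    intro j
    obtain ⟨V, hB, hV⟩ := exists_place_of_maximal (P j) (hP j)
    have hV' : ∀ b ∈ P j, (b : K) ∈ V.nonunits := fun b hb => by
      rw [← hV] at hb; exact hb
    have hCV : ∀ c : ℂ, algebraMap ℂ K c ∈ V := fun c => C_mem_of_aff hB c
    rcases hu1 V hCV (hV' _ (hmem hPp j)) with h1 | h1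
    · left
      exact hgoodV V hCV (fun x hx => exists_res_place hK hu (hP j) (hP0 j) hB hV hx) h1 _
        ((hp j).sub_mem hV')
    · right
      subst h1
      exact (hV₀ _ ((hp j).sub_mem hV')).symm
  obtain ⟨j₁, hj₁⟩ : ∃ j, cls (p j) = cls w := by
    have hB : ∀ b : Aff u, (b : K) ∈ V₀ := aff_le hC₀ (nonunits_le huV₀)
    have hcen := centre_isPrime (Aff u) V₀ hB
    have h1 : ∏ j, P j ≤ centre (Aff u) V₀ hB := by
      rw [hPp, Ideal.span_le]
      intro x hx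
      change (x : K) ∈ V₀.nonunits
      have hx' : (x : K) = u := hx
      rw [hx']
      exact huV₀
    obtain ⟨j, -, hj⟩ := (hcen.prod_le).1 h1
    have hV' : ∀ b ∈ P j, (b : K) ∈ V₀.nonunits := fun b hb => hj hb
    exact ⟨j, (hV₀ _ ((hp j).sub_mem hV')).symm⟩
  have hsum : ∑ j, (cls (p j) - c₀) = 0 := by
    rw [Finset.sum_sub_distrib, rel, Finset.sum_congr rfl (fun j _ => key₂ j), Finset.sum_const,
      Finset.sum_const, Finset.card_univ, Finset.card_univ, Fintype.card_fin, Fintype.card_fin,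
      hr12, sub_self]
  have hsum' : ∑ j, (cls (p j) - c₀) =
      (Finset.univ.filter fun j => cls (p j) - c₀ ≠ 0).card • (cls w - c₀) := by
    rw [← Finset.sum_filter_ne_zero, ← Finset.sum_const]
    refine Finset.sum_congr rfl fun j hj => ?_
    rcases key₁ j with h1 | h1
    · exact absurd (by rw [h1, sub_self]) (Finset.mem_filter.1 hj).2
    · rw [h1]
  by_contra hne
  have hne' : cls w - c₀ ≠ 0 := sub_ne_zero.2 hne
  rw [hsum'] at hsum
  have h1 : (Finset.univ.filter fun j => cls (p j) - c₀ ≠ 0).card ≠ 0 := by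
    rw [Finset.card_ne_zero]
    exact ⟨j₁, by rw [Finset.mem_filter, hj₁]; exact ⟨Finset.mem_univ _, hne'⟩⟩
  rw [← Nat.cast_smul_eq_nsmul ℚ] at hsum
  rcases smul_eq_zero.1 hsum with h2 | h2
  · exact h1 (by exact_mod_cast h2)
  · exact hne' h2

end Pool.Agent.J4H13.BC
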