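import Pool.Agent.J4H13.BC.Conn

/-!
# The cycle class of an orbit of a group with a unirational quotient
-/

set_option autoImplicit false

open MvPolynomial

namespace Pool.Agent.J4H13.BC

open Pool.Agent.Helper397.HK

section hc

variable {A : Type} [CommRing A] [Algebra ℂ A] {N : ℕ}

open scoped Classical in
/-- the class of the point with the coordinates `φ (η i)` -/
noncomputable def hc (Y : ProjVar N) (η : Fin (N + 1) → A) (φ : A →ₐ[ℂ] ℂ) : CH0 Y :=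
  if h : (fun i => φ (η i)) ∈ Y.Pts ℂ then cls ⟨_, h⟩ else 0

lemma hasCls_hc {Y : ProjVar N} {η : Fin (N + 1) → A} {φ : A →ₐ[ℂ] ℂ}
    (h : (fun i => φ (η i)) ∈ Y.Pts ℂ) : HasCls η φ (hc Y η φ) := by
  refine ⟨h, ?_⟩
  rw [hc, dif_pos h]

/-- the action of the group on the points -/
def act {H : Type} [Group H] [MulSemiringAction H A] [SMulCommClass H ℂ A] (φ : A →ₐ[ℂ] ℂ)
    (σ : H) : A →ₐ[ℂ] ℂ := φ.comp (MulSemiringAction.toAlgHom ℂ A σ)

lemma act_apply {H : Type} [Group H] [MulSemiringAction H A] [SMulCommClass H ℂ A]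
    (φ : A →ₐ[ℂ] ℂ) (σ : H) (a : A) : act φ σ a = φ (σ • a) := rfl

end hc

/-- **Orbits.** The class of the orbit of a general point under a group with a unirational quotient
does not depend on the point. -/
theorem orbit_sum {A H : Type} [CommRing A] [IsDomain A] [Algebra ℂ A] [Algebra.FiniteType ℂ A]
    [Group H] [Fintype H] [MulSemiringAction H A] [SMulCommClass H ℂ A] {m : ℕ}
    (j : FixedPoints.subalgebra ℂ A H →ₐ[ℂ] FractionRing (PR m)) (hj : Function.Injective j) :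
    ∃ h : A, h ≠ 0 ∧ ∀ {N : ℕ} {Y : ProjVar N} {η : Fin (N + 1) → A}, Y.OnCone η →
      ∀ φ φ' : A →ₐ[ℂ] ℂ, φ h ≠ 0 → φ' h ≠ 0 →
      (∀ σ : H, (fun i => act φ σ (η i)) ∈ Y.Pts ℂ) →
      (∀ σ : H, (fun i => act φ' σ (η i)) ∈ Y.Pts ℂ) →
      ∑ σ : H, hc Y η (act φ σ) = ∑ σ : H, hc Y η (act φ' σ) := by
  obtain ⟨h, hh, -, hconn⟩ := exists_conn j hj
  refine ⟨h, hh, ?_⟩
  intro N Y η hη φ φ' hφ hφ' hp hp'
  obtain ⟨M, _, _, u, Θ, hM, hu, h0, h1⟩ := hconn φ φ' hφ hφ'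
  have key : ∀ (φ : A →ₐ[ℂ] ℂ) (V : ValuationSubring M),
      (∀ σ : H, (fun i => act φ σ (η i)) ∈ Y.Pts ℂ) →
      (∃ σ : H, ∀ a, Θ a - algebraMap ℂ M (φ (σ • a)) ∈ V.nonunits) →
      ∃ (φ₁ : H → A →ₐ[ℂ] ℂ) (c : H → CH0 Y),
        (∀ k, ResAt V (Θ.comp (MulSemiringAction.toAlgHom ℂ A k)) (φ₁ k)) ∧
        (∀ k, HasCls η (φ₁ k) (c k)) ∧ ∑ k, c k = ∑ σ : H, hc Y η (act φ σ) := by
    rintro φ V hp ⟨σ₀, hσ₀⟩
    refine ⟨fun k => act φ (σ₀ * k), fun k => hc Y η (act φ (σ₀ * k)), ?_, ?_, ?_⟩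
    · intro k a
      have h2 := hσ₀ (k • a)
      rw [smul_smul] at h2
      exact h2
    · intro k
      exact hasCls_hc (hp (σ₀ * k))
    · exact Fintype.sum_equiv (Equiv.mulLeft σ₀) _ _ (fun _ => rfl)
  refine relation hη hM hu (fun σ : H => Θ.comp (MulSemiringAction.toAlgHom ℂ A σ)) _ _ ?_ ?_
  · intro V hC hV
    exact key φ V hp (h0 V hC hV)
  · intro V hC hV
    exact key φ' V hp' (h1 V hC hV)

end Pool.Agent.J4H13.BC
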