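import Pool.Agent.J4H13.BC.Deg

/-!
# The relation given by a function on a curve, for points given by homomorphisms
-/

set_option autoImplicit false

open MvPolynomial

namespace Pool.Agent.J4H13.BC

open Pool.Agent.Helper397.HK

variable {N : ℕ} {Y : ProjVar N}

/-- the value at the place `V` of the homomorphism `Θ` is `φ` -/
def ResAt {A M : Type} [CommRing A] [Algebra ℂ A] [Field M] [Algebra ℂ M] (V : ValuationSubring M)
    (Θ : A →ₐ[ℂ] M) (φ : A →ₐ[ℂ] ℂ) : Prop :=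
  ∀ a, Θ a - algebraMap ℂ M (φ a) ∈ V.nonunits

/-- the class of a homomorphism -/
def HasCls {A : Type} [CommRing A] [Algebra ℂ A] (η : Fin (N + 1) → A) (φ : A →ₐ[ℂ] ℂ)
    (c : CH0 Y) : Prop := ∃ h : (fun i => φ (η i)) ∈ Y.Pts ℂ, cls ⟨_, h⟩ = c

section half

variable {A M : Type} [CommRing A] [Algebra ℂ A] [Field M] [Algebra ℂ M]

lemma pts_of_res {η : Fin (N + 1) → A} (hη : Y.OnCone η) {V : ValuationSubring M}
    (hC : ∀ c : ℂ, algebraMap ℂ M c ∈ V) {Θ : A →ₐ[ℂ] M} {φ : A →ₐ[ℂ] ℂ} (hΘ : ResAt V Θ φ)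
    (h : (fun i => φ (η i)) ∈ Y.Pts ℂ) : (fun i => Θ (η i)) ∈ Y.Pts M := by
  refine ⟨fun h0 => ?_, hη.map Θ⟩
  obtain ⟨i, hi⟩ := Function.ne_iff.1 h.1
  have h1 := hΘ (η i)
  rw [show Θ (η i) = 0 from congrFun h0 i] at h1
  exact notMem_nonunits_of_sub hC hi h1 V.nonunits.zero_mem

/-- The zeros of a function, and the sum of the values there. -/
theorem half {η : Fin (N + 1) → A} (hη : Y.OnCone η) (hM : CurveField M) {u : M}
    (hu : Transcendental ℂ u) {ι : Type} [Fintype ι] [Nonempty ι] (Θ : ι → A →ₐ[ℂ] M) (D : CH0 Y)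
    (h0 : ∀ V : ValuationSubring M, (∀ c : ℂ, algebraMap ℂ M c ∈ V) → u ∈ V.nonunits →
      ∃ (φ : ι → A →ₐ[ℂ] ℂ) (c : ι → CH0 Y), (∀ k, ResAt V (Θ k) (φ k)) ∧
        (∀ k, HasCls η (φ k) (c k)) ∧ ∑ k, c k = D) :
    (∀ k, (fun i => Θ k (η i)) ∈ Y.Pts M) ∧ ∃ (r : ℕ) (P : Fin r → Ideal (Aff u)),
      (∀ j, (P j).IsMaximal) ∧ ∏ j, P j = Ideal.span {b : Aff u | (b : M) = u} ∧
      ∃ p : ι → Fin r → Y.Pts ℂ, (∀ k j, ValueAt u (fun i => Θ k (η i)) (P j) (p k j).1) ∧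
        ∑ k, ∑ j, cls (p k j) = r • D := by
  classical
  obtain ⟨r, P, hP, hP0, hPp⟩ := exists_factors hM hu
  have hmem : ∀ j, (⟨u, self_mem_aff u⟩ : Aff u) ∈ P j := by
    intro j
    have h1 : (⟨u, self_mem_aff u⟩ : Aff u) ∈ ∏ j, P j := by
      rw [hPp]
      exact Ideal.subset_span rfl
    exact (Ideal.prod_le_inf.trans (Finset.inf_le (Finset.mem_univ j))) h1
  choose V hB hV using fun j => exists_place_of_maximal (P j) (hP j)
  have hC : ∀ j (c : ℂ), algebraMap ℂ M c ∈ V j := fun j c => C_mem_of_aff (hB j) c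
  have hV' : ∀ j, ∀ b ∈ P j, (b : M) ∈ (V j).nonunits := by
    intro j b hb
    rw [← hV j] at hb
    exact hb
  choose φ c hφ hc hD using fun j => h0 (V j) (hC j) (hV' j _ (hmem j))
  have hr : r ≠ 0 := (card_zeros_eq (Q := Classical.choose (exists_factors hM (u := u⁻¹)
    (fun h0 => hu (by have := h0.inv; rwa [inv_inv] at this))).choose_spec) hM hu hP hPp
    (Classical.choose_spec (exists_factors hM (u := u⁻¹)
    (fun h0 => hu (by have := h0.inv; rwa [inv_inv] at this))).choose_spec).1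
    (Classical.choose_spec (exists_factors hM (u := u⁻¹)
    (fun h0 => hu (by have := h0.inv; rwa [inv_inv] at this))).choose_spec).2.2).2
  have j₀ : Fin r := ⟨0, Nat.pos_of_ne_zero hr⟩
  have hpts : ∀ k, (fun i => Θ k (η i)) ∈ Y.Pts M := fun k =>
    pts_of_res hη (hC j₀) (hφ j₀ k) (hc j₀ k).choose
  choose p hp using fun k j => exists_value hM hu (P j) (hP j) (hP0 j) (hpts k)
  refine ⟨hpts, r, P, hP, hPp, p, hp, ?_⟩
  have key : ∀ k j, cls (p k j) = c j k := by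
    intro k j
    obtain ⟨h, hc'⟩ := hc j k
    rw [← hc']
    apply cls_eq_of_prop
    intro a b
    obtain ⟨γ, hγ⟩ := (hp k j).sub_mem (hV' j)
    have h1 : ∀ i, Θ k (η i) - algebraMap ℂ M (φ j k (η i)) ∈ (V j).nonunits :=
      fun i => hφ j k (η i)
    exact value_prop (hC j) h1 hγ (fun a b => by ring) a b
  rw [Finset.sum_comm]
  have h2 : ∀ j, ∑ k, cls (p k j) = D := by
    intro j
    rw [← hD j]
    exact Finset.sum_congr rfl fun k _ => key k j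
  rw [Finset.sum_congr rfl fun j _ => h2 j, Finset.sum_const, Finset.card_univ, Fintype.card_fin]

/-- **The relation.** -/
theorem relation {η : Fin (N + 1) → A} (hη : Y.OnCone η) (hM : CurveField M) {u : M}
    (hu : Transcendental ℂ u) {ι : Type} [Fintype ι] [Nonempty ι] (Θ : ι → A →ₐ[ℂ] M)
    (D D' : CH0 Y)
    (h0 : ∀ V : ValuationSubring M, (∀ c : ℂ, algebraMap ℂ M c ∈ V) → u ∈ V.nonunits →
      ∃ (φ : ι → A →ₐ[ℂ] ℂ) (c : ι → CH0 Y), (∀ k, ResAt V (Θ k) (φ k)) ∧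
        (∀ k, HasCls η (φ k) (c k)) ∧ ∑ k, c k = D)
    (h1 : ∀ V : ValuationSubring M, (∀ c : ℂ, algebraMap ℂ M c ∈ V) → u⁻¹ ∈ V.nonunits →
      ∃ (φ : ι → A →ₐ[ℂ] ℂ) (c : ι → CH0 Y), (∀ k, ResAt V (Θ k) (φ k)) ∧
        (∀ k, HasCls η (φ k) (c k)) ∧ ∑ k, c k = D') : D = D' := by
  have hu' : Transcendental ℂ u⁻¹ := fun h0 => hu (by
    have := h0.inv
    rwa [inv_inv] at this)
  obtain ⟨hpts, r, P, hP, hPp, p, hp, hs⟩ := half hη hM hu Θ D h0
  obtain ⟨-, r', Q, hQ, hQq, q, hq, hs'⟩ := half hη hM hu' Θ D' h1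
  obtain ⟨hr, hr0⟩ := card_zeros_eq hM hu hP hPp hQ hQq
  have h2 : ∀ k, ∑ j, cls (p k j) = ∑ j, cls (q k j) := fun k =>
    cls_relation hM hu (hpts k) hP hPp (hp k) hQ hQq (hq k)
  have h3 : r • D = r • D' := by
    rw [← hs, Finset.sum_congr rfl fun k _ => h2 k, hs', hr]
  rw [← Nat.cast_smul_eq_nsmul ℚ, ← Nat.cast_smul_eq_nsmul ℚ] at h3
  have h4 : (r : ℚ) ≠ 0 := by exact_mod_cast hr0
  exact smul_right_injective _ h4 h3

end half

end Pool.Agent.J4H13.BC
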