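import Pool.Agent.J4H13.BC.Rel
import Pool.Agent.J4H13.BC.Ext

/-!
# Residues of homomorphisms at places
-/

set_option autoImplicit false

open MvPolynomial

namespace Pool.Agent.J4H13.BC

open Pool.Agent.Helper397.HK

variable {A M : Type} [CommRing A] [Algebra ℂ A] [Field M] [Algebra ℂ M]

lemma res_unique {V : ValuationSubring M} (hC : ∀ c : ℂ, algebraMap ℂ M c ∈ V) (x : M) (c c' : ℂ)
    (h1 : x - algebraMap ℂ M c ∈ V.nonunits) (h2 : x - algebraMap ℂ M c' ∈ V.nonunits) :
    c = c' := by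
  have h3 := V.nonunits.sub_mem h1 h2
  rw [sub_sub_sub_cancel_left, ← map_sub] at h3
  exact (sub_eq_zero.1 (C_notMem_nonunits hC h3)).symm

lemma exists_resHom {V : ValuationSubring M} (hC : ∀ c : ℂ, algebraMap ℂ M c ∈ V)
    (Θ : A →ₐ[ℂ] M) (hsurj : ∀ a, ∃ c : ℂ, Θ a - algebraMap ℂ M c ∈ V.nonunits) :
    ∃ ψ : A →ₐ[ℂ] ℂ, ResAt V Θ ψ := by
  choose f hf using hsurj
  have huniq := res_unique hC
  have hV : ∀ a, Θ a ∈ V := fun a => mem_of_sub hC (hf a)
  let ψ : A →ₐ[ℂ] ℂ :=
    { toFun := f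
      map_one' := by
        refine huniq (Θ 1) _ _ (hf 1) ?_
        rw [map_one, map_one, sub_self]
        exact V.nonunits.zero_mem
      map_mul' := by
        intro a b
        refine huniq (Θ (a * b)) _ _ (hf _) ?_
        have h1 := nonunits_mul (hV b) (hf a)
        have h2 := nonunits_mul (hC (f a)) (hf b)
        have h3 := V.nonunits.add_mem h1 h2
        rw [map_mul, map_mul]
        convert h3 using 1
        ring
      map_zero' := by
        refine huniq (Θ 0) _ _ (hf 0) ?_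
        rw [map_zero, map_zero, sub_self]
        exact V.nonunits.zero_mem
      map_add' := by
        intro a b
        refine huniq (Θ (a + b)) _ _ (hf _) ?_
        have h3 := V.nonunits.add_mem (hf a) (hf b)
        rw [map_add, map_add]
        convert h3 using 1
        ring
      commutes' := by
        intro c
        refine huniq (Θ (algebraMap ℂ A c)) _ _ (hf _) ?_
        rw [AlgHom.commutes]
        change algebraMap ℂ M c - algebraMap ℂ M c ∈ V.nonunits
        rw [sub_self]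
        exact V.nonunits.zero_mem }
  exact ⟨ψ, hf⟩

lemma exists_res_of_integral {V : ValuationSubring M} (hC : ∀ c : ℂ, algebraMap ℂ M c ∈ V)
    (Θ : A →ₐ[ℂ] M) (B : Subalgebra ℂ A) [Algebra.IsIntegral B A] (β : B →ₐ[ℂ] ℂ)
    (hβ : ∀ b : B, Θ b - algebraMap ℂ M (β b) ∈ V.nonunits) :
    ∃ ψ : A →ₐ[ℂ] ℂ, ResAt V Θ ψ ∧ ∀ b : B, ψ b = β b := by
  -- the values are in `V`
  have hBV : ∀ b : B, Θ b ∈ V := fun b => mem_of_sub hC (hβ b)
  have hAV : ∀ a, Θ a ∈ V := by
    intro a
    have h1 : IsIntegral B a := Algebra.IsIntegral.isIntegral a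
    let φ : B →+* V := (Θ.toRingHom.comp B.val.toRingHom).codRestrict V.toSubring hBV
    have h2 : IsIntegral V (Θ a) := by
      obtain ⟨p, hp, he⟩ := h1
      refine ⟨p.map φ, hp.map φ, ?_⟩
      rw [Polynomial.eval₂_map]
      have h3 := congrArg Θ he
      rw [map_zero] at h3
      rw [← h3]
      change _ = Θ.toRingHom (Polynomial.eval₂ (algebraMap B A) a p)
      rw [Polynomial.hom_eval₂]
      rfl
    obtain ⟨y, hy⟩ := IsIntegrallyClosed.isIntegral_iff.1 h2
    rw [← hy]
    exact y.2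
  -- the residue field
  let C₀ : ℂ →+* V := (algebraMap ℂ M).codRestrict V.toSubring hC
  let k := IsLocalRing.ResidueField V
  let ρ : A →+* k := (IsLocalRing.residue V).comp (Θ.toRingHom.codRestrict V.toSubring hAV)
  let _ : Algebra ℂ k := ((IsLocalRing.residue V).comp C₀).toAlgebra
  have hnon : ∀ v : V, IsLocalRing.residue V v = 0 ↔ (v : M) ∈ V.nonunits := by
    intro v
    rw [IsLocalRing.residue_eq_zero_iff, ValuationSubring.mem_nonunits_iff_exists_mem_maximalIdeal]
    constructor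
    · intro h
      exact ⟨v.2, h⟩
    · rintro ⟨_, h⟩
      exact h
  have hρ : ∀ (a : A) (c : ℂ), ρ a = algebraMap ℂ k c ↔
      Θ a - algebraMap ℂ M c ∈ V.nonunits := by
    intro a c
    rw [← sub_eq_zero]
    change IsLocalRing.residue V _ - IsLocalRing.residue V _ = 0 ↔ _
    rw [← map_sub, hnon]
    rfl
  have hint : ∀ a, IsIntegral ℂ (ρ a) := by
    intro a
    have h1 : IsIntegral B a := Algebra.IsIntegral.isIntegral a
    refine IsIntegral.map_of_comp_eq (β : B →+* ℂ) ρ ?_ h1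
    ext b
    exact ((hρ _ _).2 (hβ b)).symm
  have hsurj : ∀ a, ∃ c : ℂ, Θ a - algebraMap ℂ M c ∈ V.nonunits := by
    intro a
    obtain ⟨c, hc⟩ := minpoly.mem_range_of_degree_eq_one ℂ _
      (IsAlgClosed.degree_eq_one_of_irreducible ℂ (minpoly.irreducible (hint a)))
    exact ⟨c, (hρ _ _).1 hc.symm⟩
  obtain ⟨ψ, hψ⟩ := exists_resHom hC Θ hsurj
  exact ⟨ψ, hψ, fun b => res_unique hC (Θ b) _ _ (hψ b) (hβ b)⟩

end Pool.Agent.J4H13.BC
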